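import Pool.Agent.Lib.DS.H3.Spec
import Pool.Agent.Lib.DN.Ded

/-!
# All imaginary quadratic fields, part H: units of `O` and `Theta` (author helper9)
-/

set_option autoImplicit false

open scoped Pointwise nonZeroDivisors

noncomputable section

namespace Pool.Agent.DS.H3

open Pool.Agent.MuZ Pool.Agent.FW NumberField IsDedekindDomain
open Pool.Agent.DI (io ofC io_inj exists_io io_ofC ofC_io VP MP UP TP ex sqr sqr_sq kap)
open Pool.Agent.DN

variable {k o : ℕ}

theorem unit_cj {e : OO k o} (he : Nm e = 1) : e * cjO e = 1 := by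
  rw [mul_cjO, he, Int.cast_one]

theorem unit_cj' {e : OO k o} (he : Nm e = 1) : cjO e * e = 1 := by
  rw [mul_comm, unit_cj he]

theorem unit_span {e : OO k o} (he : Nm e = 1) : sp e = ⊤ :=
  Ideal.span_singleton_eq_top.2 (IsUnit.of_mul_eq_one _ (unit_cj he))

theorem unit_ne {e : OO k o} (he : Nm e = 1) : e ≠ 0 := by
  rintro rfl
  rw [Nm_zero] at he
  exact zero_ne_one he

theorem unit_cop {e : OO k o} (he : Nm e = 1) (N : ℕ) : Cop e N := by
  unfold Cop
  rw [he]
  exact isCoprime_one_left

theorem span_unit_mul {e : OO k o} (he : Nm e = 1) (a : OO k o) : sp (e * a) = sp a := by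
  have h : sp e * sp a = sp (e * a) := Ideal.span_singleton_mul_span_singleton e a
  rw [← h, unit_span he, Ideal.top_mul]

/-- `Theta` is invariant under the units. -/
theorem theta_unit (h : S_D8) [SqN k o] {m b : Ideal (OO k o)} (hm : m ≠ ⊥) (hb : G15 b)
    (hm2 : PrI m 2) (hm15 : PrI m 15) {e : OO k o} (he : Nm e = 1) {z : ℂ} (hz : Tor k o z) :
    Theta m b (toC e * z) = Theta m b z := by
  rw [← (h k o m b hm hb hm2 hm15).2.2.1 e z (unit_ne he) (unit_cop he 15) hz, unit_span he,
    Ideal.top_mul]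

end Pool.Agent.DS.H3
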