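import Pool.Agent.Lib.DS.H3.Spec

set_option autoImplicit false

/-!
# All imaginary quadratic fields, part H3, module Rdm: the reduction modulo `λ`
-/

open scoped Pointwise nonZeroDivisors

noncomputable section

namespace Pool.Agent.DS.H3

open Pool.Agent.MuZ Pool.Agent.FW NumberField IsDedekindDomain
open Pool.Agent.DI (io ofC io_inj exists_io io_ofC ofC_io VP MP UP TP ex sqr sqr_sq kap)
open Pool.Agent.DN

namespace RdmAux

variable {k o : ℕ}

theorem rd_mul {l : ℕ} {r : ZMod l} (hr : r ^ 2 = o * r - k) (x y : OO k o) :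
    rd r (x * y) = rd r x * rd r y := by
  unfold rd
  rw [DN.re_mul, DN.im_mul]
  push_cast
  linear_combination (-((x.im : ZMod l) * (y.im : ZMod l))) * hr

theorem rd_add {l : ℕ} (r : ZMod l) (x y : OO k o) : rd r (x + y) = rd r x + rd r y := by
  unfold rd
  rw [QuadraticAlgebra.re_add, QuadraticAlgebra.im_add]
  push_cast
  ring

theorem rd_neg {l : ℕ} (r : ZMod l) (x : OO k o) : rd r (-x) = - rd r x := by
  unfold rd
  rw [QuadraticAlgebra.re_neg, QuadraticAlgebra.im_neg]
  push_cast
  ring

theorem rd_sub {l : ℕ} (r : ZMod l) (x y : OO k o) : rd r (x - y) = rd r x - rd r y := by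
  rw [sub_eq_add_neg, rd_add, rd_neg, sub_eq_add_neg]

theorem rd_nat {l : ℕ} (r : ZMod l) (n : ℕ) : rd r (n : OO k o) = n := by
  unfold rd
  rw [DN.re_nat, DN.im_nat]
  simp

theorem rd_one {l : ℕ} (r : ZMod l) : rd r (1 : OO k o) = 1 := by
  unfold rd
  rw [DN.re_one, DN.im_one]
  simp

theorem sq_one {z : ℤ} (hz : z ^ 2 = 1) : z = 1 ∨ z = -1 := by
  have h0 : (z - 1) * (z + 1) = 0 := by linear_combination hz
  rcases mul_eq_zero.1 h0 with h | h
  · left
    omega
  · right
    omega

/-- The units of `O`. -/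
theorem units [hI : SqN k o] {e : OO k o} (he : Nm e = 1) :
    e = 1 ∨ e = -1 ∨ e ^ 3 = 1 ∨ e ^ 3 = -1 ∨ (k = 1 ∧ o = 0 ∧ (e = wI k o ∨ e = -wI k o)) := by
  have hk : 0 < k := hn (n := k) (t := o)
  have hk' : (1 : ℤ) ≤ k := by exact_mod_cast hk
  rcases hI.out with ⟨rfl, -, -⟩ | ⟨rfl, -, -, -⟩
  · obtain ⟨x, y⟩ := e
    have h1 : x ^ 2 + x * y + k * y ^ 2 = 1 := by
      have := he
      unfold Nm at this
      push_cast at this
      linarith
    have h2 : (2 * x + y) ^ 2 + (4 * (k : ℤ) - 1) * y ^ 2 = 4 := by linarith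
    rcases eq_or_ne y 0 with rfl | hy
    · have h3 : x ^ 2 = 1 := by linarith
      rcases sq_one h3 with h4 | h4
      · left
        exact ext' h4 rfl
      · right
        left
        exact ext' h4 rfl
    · have h3 : 1 ≤ y ^ 2 := by
        have := Int.one_le_abs hy
        nlinarith [sq_abs y]
      have h4 : (k : ℤ) = 1 := by
        by_contra hne
        have h5 : (2 : ℤ) ≤ k := by omega
        nlinarith [sq_nonneg (2 * x + y)]
      have h5 : k = 1 := by exact_mod_cast h4
      subst h5
      have h6 : y ^ 2 ≤ 1 := by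
        push_cast at h2
        nlinarith [sq_nonneg (2 * x + y)]
      have h7 : y ^ 2 = 1 := le_antisymm h6 h3
      have h8 : (2 * x + y) ^ 2 = 1 := by
        push_cast at h2
        linarith
      right
      right
      rcases sq_one h7 with rfl | rfl <;>
        rcases sq_one h8 with h9 | h9
      · obtain rfl : x = 0 := by omega
        right
        left
        decide
      · obtain rfl : x = -1 := by omega
        left
        decide
      · obtain rfl : x = 1 := by omega
        right
        left
        decide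
      · obtain rfl : x = 0 := by omega
        left
        decide
  · obtain ⟨x, y⟩ := e
    have h1 : x ^ 2 + k * y ^ 2 = 1 := by
      have := he
      unfold Nm at this
      push_cast at this
      linarith
    rcases eq_or_ne y 0 with rfl | hy
    · have h3 : x ^ 2 = 1 := by linarith
      rcases sq_one h3 with h4 | h4
      · left
        exact ext' h4 rfl
      · right
        left
        exact ext' h4 rfl
    · have h3 : 1 ≤ y ^ 2 := by
        have := Int.one_le_abs hy
        nlinarith [sq_abs y]
      have h4 : (k : ℤ) = 1 := by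
        by_contra hne
        have h5 : (2 : ℤ) ≤ k := by omega
        nlinarith [sq_nonneg x]
      have h5 : k = 1 := by exact_mod_cast h4
      subst h5
      have h6 : y ^ 2 ≤ 1 := by
        push_cast at h1
        nlinarith [sq_nonneg x]
      have h7 : y ^ 2 = 1 := le_antisymm h6 h3
      have h8 : x ^ 2 = 0 := by
        push_cast at h1
        linarith
      have h9 : x = 0 := by
        rcases pow_eq_zero_iff (two_ne_zero) |>.1 h8 with h
        exact h
      subst h9
      right
      right
      right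
      right
      refine ⟨rfl, rfl, ?_⟩
      rcases sq_one h7 with rfl | rfl
      · left
        rfl
      · right
        decide

theorem rd_pow {l : ℕ} {r : ZMod l} (hr : r ^ 2 = o * r - k) (x : OO k o) (n : ℕ) :
    rd r (x ^ n) = rd r x ^ n := by
  induction n with
  | zero => rw [pow_zero, pow_zero, rd_one]
  | succ n ih => rw [pow_succ, pow_succ, rd_mul hr, ih]

/-- Units are squares modulo `λ`. -/
theorem unit_sq [SqN k o] {l : ℕ} (hl : l.Prime) (hl8 : l % 8 = 1) {r : ZMod l}
    (hr : r ^ 2 = o * r - k) {e : OO k o} (he : Nm e = 1) : IsSquare (rd r e) := by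
  have : Fact l.Prime := ⟨hl⟩
  have hm1 : IsSquare (-1 : ZMod l) := by
    rw [ZMod.exists_sq_eq_neg_one_iff]
    omega
  have key : ∀ x : ZMod l, x ^ 3 = 1 ∨ x ^ 3 = -1 → IsSquare x := by
    intro x hx
    obtain ⟨s, hs⟩ := hm1
    have hx0 : x ≠ 0 := by
      rintro rfl
      rcases hx with h | h
      · rw [zero_pow (by norm_num)] at h
        exact zero_ne_one h
      · rw [zero_pow (by norm_num), eq_comm, neg_eq_zero] at h
        exact one_ne_zero h
    rcases hx with h | h
    · exact ⟨x ^ 2, by linear_combination (-x) * h⟩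
    · refine ⟨s * x ^ 2, ?_⟩
      have h2 : s * x ^ 2 * (s * x ^ 2) = (s * s) * (x ^ 3 * x) := by ring
      rw [h2, ← hs, h]
      ring
  have key2 : ∀ x : ZMod l, x ^ 2 = -1 → IsSquare x := by
    intro x hx
    have h2 : IsSquare (2 : ZMod l) := by
      have hl2 : l ≠ 2 := by
        rintro rfl
        omega
      exact (ZMod.exists_sq_eq_two_iff hl2).2 (Or.inl hl8)
    obtain ⟨s, hs⟩ := h2
    -- `(1 + x) ^ 2 = 2 x`
    have h20 : (2 : ZMod l) ≠ 0 := by
      intro h
      have h3 : ((2 : ℕ) : ZMod l) = 0 := by exact_mod_cast h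
      rw [ZMod.natCast_eq_zero_iff] at h3
      have h4 := Nat.le_of_dvd two_pos h3
      have h5 := hl.two_le
      omega
    have hs0 : s ≠ 0 := by
      rintro rfl
      rw [zero_mul] at hs
      exact h20 hs
    refine ⟨(1 + x) / s, ?_⟩
    rw [div_mul_div_comm, ← hs, eq_div_iff h20]
    linear_combination (-1 : ZMod l) * hx
  rcases units he with h | h | h | h | ⟨hk, ho, h⟩
  · rw [h, rd_one]
    exact ⟨1, by ring⟩
  · rw [h, rd_neg, rd_one]
    exact hm1
  · apply key
    left
    rw [← rd_pow hr, h, rd_one]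
  · apply key
    right
    rw [← rd_pow hr, h, rd_neg, rd_one]
  · subst hk
    subst ho
    apply key2
    have hw : rd r (wI 1 0) = r := by
      unfold rd wI
      simp
    have hr' : r ^ 2 = -1 := by
      rw [hr]
      simp
    rcases h with rfl | rfl
    · rw [hw, hr']
    · rw [rd_neg, hw, neg_sq, hr']

end RdmAux

open RdmAux in
theorem tRdm : S_hRdm := by
  intro k o _ f l la r hD
  have hN : la * cjO la = (l : OO k o) := by
    rw [mul_cjO, hD.hla, Int.cast_natCast]
  refine ⟨rd_mul hD.hr, rd_add r, rd_sub r, rd_neg r, rd_nat r, rd_one r, ?_, hN,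
    ⟨cjO la, hN.symm⟩, fun e he => unit_sq hD.hl hD.hl8 hD.hr he⟩
  intro a ha h0
  have h2 : (l : ℤ) ∣ Nm a := by
    rw [← hD.hla]
    exact Nm_dvd ((hD.hker a).1 h0)
  have h3 : IsUnit (l : ℤ) := IsCoprime.isUnit_of_dvd' ha h2 dvd_rfl
  rw [Int.isUnit_iff] at h3
  have h4 := hD.hl.one_lt
  omega

end Pool.Agent.DS.H3
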