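import Pool.Agent.Lib.DS.H3.Un
import Pool.Agent.Lib.DS.H3.Rdm
import Pool.Agent.Lib.DR.H3.Nres
import Pool.Agent.Lib.MuZ.InT

/-!
# All imaginary quadratic fields, part H: inertia groups of `L'_N` at the primes not above `2` (author helper9)
-/

set_option autoImplicit false

open scoped Pointwise nonZeroDivisors

noncomputable section

namespace Pool.Agent.DS.H3

open Pool.Agent.MuZ Pool.Agent.FW NumberField IsDedekindDomain
open Pool.Agent.DI (io ofC io_inj exists_io io_ofC ofC_io VP MP UP TP ex sqr sqr_sq kap)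
open Pool.Agent.DN

variable {k o : ℕ}

namespace InAux

/-- A prime which contains a positive integer prime to `l` does not contain `l`. -/
theorem not_mem_of_cop {P : Ideal ZZ} (hP : P.IsPrime) {c l : ℕ} (hc : (c : ZZ) ∈ P)
    (h : c.Coprime l) : (l : ZZ) ∉ P := by
  intro hl
  obtain ⟨x, y, hxy⟩ := Nat.isCoprime_iff_coprime.2 h
  apply hP.one_notMem
  have e : ((x : ZZ) * (c : ZZ) + (y : ZZ) * (l : ZZ)) = 1 := by
    have := congrArg (fun t : ℤ => (t : ZZ)) hxy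
    simpa using this
  rw [← e]
  exact P.add_mem (P.mul_mem_left _ hc) (P.mul_mem_left _ hl)

/-- A nonzero prime contains a positive integer. -/
theorem exists_nat_mem {P : Ideal ZZ} (hP : Npr P) : ∃ c : ℕ, 0 < c ∧ (c : ZZ) ∈ P := by
  obtain ⟨x, hx, hx0⟩ := Submodule.exists_mem_ne_zero_of_ne_bot hP.2
  have hint : IsIntegral ℤ x := integralClosure.isIntegral x
  have h3 := Ideal.comap_ne_bot_of_integral_mem hx0 hx hint
  obtain ⟨n, hn, hn0⟩ := Submodule.exists_mem_ne_zero_of_ne_bot h3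
  refine ⟨n.natAbs, Int.natAbs_pos.2 hn0, ?_⟩
  have h4 : ((n : ℤ) : ZZ) ∈ P := by
    have := Ideal.mem_comap.1 hn
    simpa using this
  rcases Int.natAbs_eq n with h | h
  · rw [h, Int.cast_natCast] at h4
    exact h4
  · rw [h, Int.cast_neg, Int.cast_natCast] at h4
    have := P.neg_mem h4
    rwa [neg_neg] at this

/-- The inertia group fixes the `l`-th roots of unity. -/
theorem inertia_root {Q : Ideal ZZ} (hQ : Q.IsPrime) {l : ℕ} (hl : (l : ZZ) ∉ Q) (hl0 : 0 < l)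
    {τ : Gal(Om/ℚ)} (hτ : τ ∈ Q.inertia Gal(Om/ℚ)) {ζ : Om} (hζ : ζ ^ l = 1) : τ ζ = ζ := by
  have hint : IsIntegral ℤ ζ := by
    refine IsIntegral.of_pow hl0 ?_
    rw [hζ]
    exact isIntegral_one
  have hζ0 : ζ ≠ 0 := by
    rintro rfl
    rw [zero_pow hl0.ne'] at hζ
    exact zero_ne_one hζ
  set x : ZZ := ⟨ζ, hint⟩ with hx
  have hx1 : x ^ l = 1 := Subtype.ext hζ
  have hxx : x * x ^ (l - 1) = 1 := by
    rw [← pow_succ', Nat.sub_add_cancel hl0, hx1]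
  have h1 : τ • x - x ∈ Q := hτ x
  have h2 : (τ • x) * x ^ (l - 1) - 1 ∈ Q := by
    have e : (τ • x) * x ^ (l - 1) - 1 = (τ • x - x) * x ^ (l - 1) := by
      rw [sub_mul, hxx]
    rw [e]
    exact Q.mul_mem_right _ h1
  have h3 : ((τ • x) * x ^ (l - 1)) ^ l ^ 1 = 1 := by
    rw [pow_one, mul_pow, ← pow_mul, mul_comm (l - 1) l, pow_mul, hx1, one_pow, mul_one, ← smul_pow', hx1,
      smul_one]
  have h4 := InTAux.root_one hQ hl h3 h2
  have h5 : τ • x = x := by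
    have e : (τ • x) * (x ^ (l - 1) * x) = x := by rw [← mul_assoc, h4, one_mul]
    rwa [mul_comm (x ^ (l - 1)) x, hxx, mul_one] at e
  have h6 := congrArg (fun t : ZZ => (t : Om)) h5
  exact h6

/-- The main case: `v = 1` modulo `2`. -/
theorem core (h3 : S_L3) (h4 : S_B1) (h6 : S_hE4) [SqN k o] {Q : Ideal ZZ} (hQ : Npr Q)
    (hQ2 : ¬ MP Q 2) {τ : Gal(Om/ℚ)} (hτ : τ ∈ Q.inertia Gal(Om/ℚ)) (hK : τ ∈ GK k o) {M : ℕ}
    (hM : 0 < M) (h30 : 30 ∣ M) {v : OO k o} (hv : (2 : OO k o) ∣ v - 1) (hP : Psi τ M (sp v))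
    {δ : Ideal (OO k o)} (hδ : δ ≠ ⊥) (hle : sp (M : OO k o) ≤ δ) (hA : ¬ Abv Q δ) :
    v - 1 ∈ δ ∨ v + 1 ∈ δ := by
  by_cases htop : δ = ⊤
  · left
    rw [htop]
    trivial
  obtain ⟨⟨g, hg, hg'⟩, hgen, -⟩ := h3 k o δ ⊤ hδ top_ne_bot
  obtain ⟨hann, -⟩ := hgen g hg hg'
  have hvδ : v ∉ δ := by
    intro hvδ
    apply htop
    have hpr : PrI (sp v) M := pri_dvd (Dvd.intro_left _ rfl) hP.cop
    rw [eq_top_iff, ← (show sp v ⊔ Ideal.span {(M : OO k o)} = ⊤ from hpr)]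
    exact sup_le ((Ideal.span_singleton_le_iff_mem _).2 hvδ) hle
  have h1δ : (1 : OO k o) ∉ δ := fun h => htop ((Ideal.eq_top_iff_one _).2 h)
  have hg0 : g ∉ Lam (⊤ : Ideal (OO k o)) := by
    intro h
    apply h1δ
    rw [← hann, toC_one, one_mul]
    exact h
  have hvg : toC v * g ∉ Lam (⊤ : Ideal (OO k o)) := fun h => hvδ ((hann v).1 h)
  have e := h6 k o Q hQ hQ2 τ hK hτ v ⊤ δ M hM h30 g15_top hδ hle hA hv hP g hg
  obtain ⟨-, -, -, b4, -⟩ := h4 k o ⊤ top_ne_bot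
  rcases (b4 _ _ hvg hg0).1 e with h | h
  · left
    rw [← hann, toC_sub, toC_one, sub_mul, one_mul]
    exact h
  · right
    rw [← hann, toC_add, toC_one, add_mul, one_mul]
    exact h

theorem two_dvd_iff (v : OO k o) : (2 : OO k o) ∣ v ↔ (2 : ℤ) ∣ v.re ∧ (2 : ℤ) ∣ v.im := by
  have := nat_dvd_iff (n := k) (t := o) 2 v
  push_cast at this
  exact this

/-- `2` not ramified: the elements of `H_f` are `1` modulo `2`. -/
theorem two_one {f : ℕ} {a : OO k 1} (ha : Hf f a) : (2 : OO k 1) ∣ a - 1 := by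
  have hpow : ∀ j : ℕ, (2 : ℤ) ∣ (a ^ 2 ^ j).im - a.im := by
    intro j
    induction j with
    | zero => simp
    | succ j ih =>
      rw [pow_succ, pow_mul, sq, im_mul]
      set b := a ^ 2 ^ j
      have e : b.re * b.im + b.im * b.re + ((1 : ℕ) : ℤ) * b.im * b.im - a.im =
          2 * (b.re * b.im) + b.im * (b.im - 1) + (b.im - a.im) := by
        push_cast
        ring
      rw [e]
      refine dvd_add (dvd_add (Dvd.intro _ rfl) ?_) ih
      rcases Int.even_or_odd b.im with h | h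
      · exact Dvd.dvd.mul_right h.two_dvd _
      · exact Dvd.dvd.mul_left (by obtain ⟨c, hc⟩ := h; exact ⟨c, by omega⟩) _
  obtain ⟨hc, j, hj⟩ := ha
  have h2 : (2 : OO k 1) ∣ a ^ 2 ^ j - 1 := by
    refine dvd_trans ?_ hj
    push_cast
    exact Dvd.intro _ rfl
  have h3 := ((two_dvd_iff _).1 h2).2
  rw [QuadraticAlgebra.im_sub, im_one, sub_zero] at h3
  have h4 : (2 : ℤ) ∣ a.im := by
    have := dvd_sub h3 (hpow j)
    rwa [sub_sub_cancel] at this
  have h5 : ¬ (2 : ℤ) ∣ a.re := by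
    intro h5
    have h6 : (2 : ℤ) ∣ Nm a := by
      unfold Nm
      obtain ⟨x, hx⟩ := h5
      obtain ⟨y, hy⟩ := h4
      rw [hx, hy]
      exact ⟨2 * x ^ 2 + 2 * ((1 : ℕ) : ℤ) * x * y + 2 * k * y ^ 2, by ring⟩
    have h7 : IsCoprime (Nm a) (2 : ℤ) := by
      have := cop_dvd hc (Dvd.intro _ rfl : 2 ∣ 2 * f)
      exact_mod_cast this
    have h8 := IsCoprime.isUnit_of_dvd' h7 h6 dvd_rfl
    rw [Int.isUnit_iff] at h8
    omega
  rw [two_dvd_iff, QuadraticAlgebra.re_sub, QuadraticAlgebra.im_sub, re_one, im_one]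
  omega

/-- `P` contains neither `4` nor `l`. -/
theorem not_abv {Q : Ideal ZZ} (hQ : Q.IsPrime) (hQ2 : ¬ MP Q 2) [SqN k o] {l : ℕ} (hl : (l : ZZ) ∉ Q) :
    ¬ Abv Q (sp ((4 * l : ℕ) : OO k o)) := by
  intro h
  have h5 := h _ (Ideal.mem_span_singleton_self _)
  rw [toO_nat] at h5
  have h6 : ((4 * l : ℕ) : ZZ) ∈ Q := (DI.MP.nat_iff _).1 h5
  push_cast at h6
  rcases hQ.mem_or_mem h6 with h7 | h7
  · have h8 : (2 : ZZ) * 2 ∈ Q := by
      have e : (2 : ZZ) * 2 = 4 := by norm_num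
      rwa [e]
    have h9 : (2 : ZZ) ∈ Q := by
      rcases hQ.mem_or_mem h8 with h | h <;> exact h
    apply hQ2
    have := (DI.MP.nat_iff (P := Q) 2).2 (by exact_mod_cast h9)
    exact_mod_cast this
  · exact hl h7

/-- The arithmetic of the case `2` ramified. -/
theorem arith {k l : ℕ} (hl : l.Prime) (hl2 : 2 < l) (hk4 : k % 4 = 1 ∨ k % 4 = 2)
    (hns : ¬ IsSquare (k : ZMod l)) {x y : ℤ} (hy : ¬ (2 : ℤ) ∣ y)
    (hodd : ¬ (2 : ℤ) ∣ x ^ 2 + k * y ^ 2) (hN : (l : ℤ) ∣ x ^ 2 + k * y ^ 2 - 1)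
    (h : (4 * l : ℤ) ∣ x ^ 2 - k * y ^ 2 - 1 ∨ (4 * l : ℤ) ∣ x ^ 2 - k * y ^ 2 + 1) : False := by
  rcases h with h | h
  · have h4 : (4 : ℤ) ∣ x ^ 2 - k * y ^ 2 - 1 := dvd_trans (Dvd.intro _ rfl) h
    obtain ⟨u, rfl⟩ : ∃ u, y = 2 * u + 1 := by
      rcases Int.even_or_odd y with h | h
      · exact absurd h.two_dvd hy
      · exact h
    rcases hk4 with hk | hk
    · obtain ⟨c, hc⟩ : ∃ c : ℕ, k = 4 * c + 1 := ⟨k / 4, by omega⟩
      subst hc
      rcases Int.even_or_odd' x with ⟨v, rfl | rfl⟩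
      · obtain ⟨w, hw⟩ := h4
        push_cast at hw
        ring_nf at hw
        omega
      · apply hodd
        push_cast
        exact ⟨2 * v ^ 2 + 2 * v + 8 * c * u ^ 2 + 8 * c * u + 2 * c + 2 * u ^ 2 + 2 * u + 1, by ring⟩
    · obtain ⟨c, hc⟩ : ∃ c : ℕ, k = 4 * c + 2 := ⟨k / 4, by omega⟩
      subst hc
      rcases Int.even_or_odd' x with ⟨v, rfl | rfl⟩
      · apply hodd
        push_cast
        exact ⟨2 * v ^ 2 + (2 * c + 1) * (2 * u + 1) ^ 2, by ring⟩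
      · obtain ⟨w, hw⟩ := h4
        push_cast at hw
        ring_nf at hw
        omega
  · have hlZ : (l : ℤ) ∣ x ^ 2 - k * y ^ 2 + 1 := dvd_trans (Dvd.intro_left _ rfl) h
    have : Fact l.Prime := ⟨hl⟩
    have e1 : (x : ZMod l) ^ 2 - k * (y : ZMod l) ^ 2 + 1 = 0 := by
      have := (ZMod.intCast_zmod_eq_zero_iff_dvd _ l).2 hlZ
      push_cast at this
      exact this
    have e2 : (x : ZMod l) ^ 2 + k * (y : ZMod l) ^ 2 - 1 = 0 := by
      have := (ZMod.intCast_zmod_eq_zero_iff_dvd _ l).2 hN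
      push_cast at this
      exact this
    have h20 : (2 : ZMod l) ≠ 0 := by
      intro h
      have h3 : ((2 : ℕ) : ZMod l) = 0 := by exact_mod_cast h
      rw [ZMod.natCast_eq_zero_iff] at h3
      have h4 := Nat.le_of_dvd two_pos h3
      omega
    have e3 : (2 : ZMod l) * (x : ZMod l) ^ 2 = 0 := by linear_combination e1 + e2
    have e4 : (x : ZMod l) = 0 := by
      rcases mul_eq_zero.1 e3 with h | h
      · exact absurd h h20
      · exact pow_eq_zero_iff (two_ne_zero) |>.1 h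
    rw [e4] at e2
    have e5 : (k : ZMod l) * (y : ZMod l) ^ 2 = 1 := by linear_combination e2
    have hy0 : (y : ZMod l) ≠ 0 := by
      intro h
      rw [h] at e5
      norm_num at e5
    apply hns
    refine ⟨(y : ZMod l)⁻¹, ?_⟩
    field_simp
    linear_combination e5

end InAux

open InAux in
/-- **Inertia groups at the primes not above `2`.** -/
theorem tIn (h0 : S_O2) (h1 : S_O6) (h2 : S_O7) (h3 : S_L3) (h4 : S_B1) (h5 : S_E1) (h6 : S_hE4)
    (h7 : S_E6) (h8 : S_hFix) (h9 : S_hHN) : S_hIn := by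
  intro k o inst f N hf h15 hN Q hQ hQ2 τ hτ hτF M a δ hM haN ha hδ hle hA
  have hQp : Q.IsPrime := hQ.1
  obtain ⟨-, hfix, -, hgen⟩ := h8 k o f N hf h15 hN
  have hK : τ ∈ GK k o := ((hfix τ).1 hτF).1
  obtain ⟨n1, n2, -, -, n5⟩ := h9 k o f N hf h15 hN
  obtain ⟨-, -, -, o4, -⟩ := h1 k o
  obtain ⟨ha0, hca2, hcaM⟩ := n5 a haN
  have hFN : 0 < f * 2 ^ N := Nat.mul_pos hf.pos (pow_pos two_pos _)
  have h30F : 30 ∣ f * 2 ^ N := by
    have h2 : 2 ∣ 2 ^ N := dvd_pow_self 2 (by omega)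
    have h3 : 15 * 2 ∣ f * 2 ^ N := mul_dvd_mul h15 h2
    exact h3
  have hM1 : 0 < f * 2 ^ N * M := Nat.mul_pos hFN hM
  have h30 : 30 ∣ f * 2 ^ N * M := h30F.mul_right M
  -- elements which are `1` modulo `2` up to a unit
  have main : ∀ e : OO k o, Nm e = 1 → HN f N e → HN f N (-e) → (2 : OO k o) ∣ e * a - 1 →
      ∃ e : OO k o, Nm e = 1 ∧ HN f N e ∧ e * a - 1 ∈ δ := by
    intro e he heN heN' h2a
    have hP : Psi τ (f * 2 ^ N * M) (sp (e * a)) := by rwa [span_unit_mul he a]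
    rcases core h3 h4 h6 hQ hQ2 hτ hK hM1 h30 h2a hP hδ hle hA with h | h
    · exact ⟨e, he, heN, h⟩
    · refine ⟨-e, by rw [Nm_neg, he], heN', ?_⟩
      have e1 : -e * a - 1 = -(e * a + 1) := by ring
      rw [e1]
      exact δ.neg_mem h
  by_cases h2a : (2 : OO k o) ∣ a - 1
  · exact main 1 Nm_one n1 n2 (by rwa [one_mul])
  rcases inst.out with ⟨rfl, -, -⟩ | ⟨rfl, hk0, hksq, hk4⟩
  · exact absurd (two_one haN.1) h2a
  -- `o = 0`
  obtain ⟨x, y⟩ := a
  have hNa : Nm (⟨x, y⟩ : OO k 0) = x ^ 2 + k * y ^ 2 := by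
    unfold Nm
    push_cast
    ring
  have hodd0 : ¬ (2 : ℤ) ∣ x ^ 2 + k * y ^ 2 := by
    intro h6
    rw [← hNa] at h6
    have h7 : IsCoprime (Nm (⟨x, y⟩ : OO k 0)) (2 : ℤ) := by
      have := cop_dvd hca2 (Dvd.intro _ rfl : 2 ∣ 2 * f)
      exact_mod_cast this
    have h8 := IsCoprime.isUnit_of_dvd' h7 h6 dvd_rfl
    rw [Int.isUnit_iff] at h8
    omega
  have hy : ¬ (2 : ℤ) ∣ y := by
    intro hy
    apply h2a
    rw [two_dvd_iff]
    rw [QuadraticAlgebra.re_sub, QuadraticAlgebra.im_sub, re_one, im_one]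
    refine ⟨?_, by simpa using hy⟩
    have hx : ¬ (2 : ℤ) ∣ x := by
      intro hx
      apply hodd0
      obtain ⟨u, rfl⟩ := hx
      obtain ⟨v, rfl⟩ := hy
      exact ⟨2 * u ^ 2 + 2 * k * v ^ 2, by ring⟩
    change (2 : ℤ) ∣ x - 1
    omega
  rcases Nat.lt_or_ge k 2 with hk | hk
  · -- `K = ℚ(i)`
    obtain rfl : k = 1 := by omega
    have hx : (2 : ℤ) ∣ x := by
      rcases Int.even_or_odd x with h | h
      · exact h.two_dvd
      · exfalso
        apply hodd0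
        obtain ⟨u, rfl⟩ := h
        obtain ⟨v, rfl⟩ : ∃ v, y = 2 * v + 1 := by
          rcases Int.even_or_odd y with h | h
          · exact absurd h.two_dvd hy
          · exact h
        push_cast
        exact ⟨2 * u ^ 2 + 2 * u + 2 * v ^ 2 + 2 * v + 1, by ring⟩
    have hw4 : (wI 1 0) ^ 4 = 1 := by decide
    have hNw : Nm (wI 1 0) = 1 := by decide
    have hHw : HN f N (wI 1 0) := by
      refine ⟨⟨unit_cop hNw _, 2, ?_⟩, Or.inl ?_⟩
      · rw [show 2 ^ 2 = 4 by norm_num, hw4, sub_self]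
        exact dvd_zero _
      · rw [hNw, sub_self]
        exact dvd_zero _
    have hHw' : HN f N (-(wI 1 0)) := by
      refine ⟨⟨unit_cop (by rw [Nm_neg, hNw]) _, 2, ?_⟩, Or.inl ?_⟩
      · rw [show 2 ^ 2 = 4 by norm_num, Even.neg_pow (by decide), hw4, sub_self]
        exact dvd_zero _
      · rw [Nm_neg, hNw, sub_self]
        exact dvd_zero _
    refine main (-(wI 1 0)) (by rw [Nm_neg, hNw]) hHw' (by rwa [neg_neg]) ?_
    have e : -(wI 1 0) * (⟨x, y⟩ : OO 1 0) = ⟨y, -x⟩ := by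
      apply ext'
      · rw [neg_mul, QuadraticAlgebra.re_neg, re_mul]
        simp [wI]
      · rw [neg_mul, QuadraticAlgebra.im_neg, im_mul]
        simp [wI]
    rw [e, two_dvd_iff, QuadraticAlgebra.re_sub, QuadraticAlgebra.im_sub, re_one, im_one]
    change (2 : ℤ) ∣ y - 1 ∧ (2 : ℤ) ∣ -x - 0
    omega
  · -- `2` ramified, `k ≥ 2`
    exfalso
    obtain ⟨c, hc0, hc⟩ := exists_nat_mem hQ
    obtain ⟨l, hl, hB, hns⟩ := DR.H3.exists_nonres hksq hk (c + 2)
    have hlQ : (l : ZZ) ∉ Q := by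
      refine not_mem_of_cop hQp hc ?_
      exact (Nat.Coprime.symm ((Nat.Prime.coprime_iff_not_dvd hl).2 fun h => by
        have := Nat.le_of_dvd hc0 h
        omega))
    have h4l : 0 < 4 * l := by omega
    obtain ⟨a', haN', ha'⟩ := hgen τ hτF (M * (4 * l)) (Nat.mul_pos hM h4l)
    have hM2 : 0 < f * 2 ^ N * (M * (4 * l)) := Nat.mul_pos hFN (Nat.mul_pos hM h4l)
    have h15M2 : 15 ∣ f * 2 ^ N * (M * (4 * l)) := fif_dvd' h15 N _
    have hdM : f * 2 ^ N * M ∣ f * 2 ^ N * (M * (4 * l)) := ⟨4 * l, by ring⟩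
    have ha'1 : Psi τ (f * 2 ^ N * M) (sp a') :=
      (h5 k 0 _ hM2 h15M2).2.2.2.2 τ _ _ ha' hdM (fif_dvd' h15 N M)
    have hray : Ray (f * 2 ^ N * M) (sp a') (sp (⟨x, y⟩ : OO k 0)) :=
      (h5 k 0 _ hM1 (fif_dvd' h15 N M)).2.1 τ _ _ ha'1 ha
    have hcM : ∀ b : OO k 0, Psi τ (f * 2 ^ N * M) (sp b) → Cop b (f * 2 ^ N * M) := fun b hb =>
      (o4 _ b hM1).1 (pri_dvd (Dvd.intro_left _ rfl) hb.cop)
    have hne : ∀ b : OO k 0, Psi τ (f * 2 ^ N * M) (sp b) → b ≠ 0 := fun b hb h10 =>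
      hb.ne (Ideal.span_singleton_eq_bot.2 h10)
    obtain ⟨e, he, hdvd⟩ := ((h2 k 0 _ hM1).2.2.2.2.2.2.2.1 a' _ (hne _ ha'1) (hne _ ha) (hcM _ ha'1)
      (hcM _ ha)).1 hray
    obtain ⟨ex, ey⟩ := e
    have hey : ey = 0 := by
      have h10 : ex ^ 2 + k * ey ^ 2 = 1 := by
        have := he
        unfold Nm at this
        push_cast at this
        linarith
      by_contra hne
      have h11 : 1 ≤ ey ^ 2 := by
        have := Int.one_le_abs hne
        nlinarith [sq_abs ey]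
      have h12 : (2 : ℤ) ≤ k := by exact_mod_cast hk
      nlinarith [sq_nonneg ex]
    have hex : ¬ (2 : ℤ) ∣ ex := by
      have h10 : ex ^ 2 = 1 := by
        have := he
        unfold Nm at this
        rw [hey] at this
        push_cast at this
        linarith
      rcases RdmAux.sq_one h10 with h | h <;> omega
    obtain ⟨x', y'⟩ := a'
    have h2d : (2 : OO k 0) ∣ ⟨x', y'⟩ - ⟨ex, ey⟩ * ⟨x, y⟩ := by
      refine dvd_trans ?_ hdvd
      have : 2 ∣ f * 2 ^ N * M := dvd_trans (by norm_num) h30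
      exact_mod_cast (Nat.cast_dvd_cast (α := OO k 0) this)
    have hy' : ¬ (2 : ℤ) ∣ y' := by
      have h10 := ((two_dvd_iff _).1 h2d).2
      rw [QuadraticAlgebra.im_sub, im_mul] at h10
      change (2 : ℤ) ∣ y' - (ex * y + ey * x + ((0 : ℕ) : ℤ) * ey * y) at h10
      rw [hey] at h10
      intro h11
      have h12 : (2 : ℤ) ∣ ex * y := by
        have := dvd_sub h11 h10
        push_cast at this
        ring_nf at this
        exact this
      rcases Int.prime_two.dvd_or_dvd h12 with h | h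
      · exact hex h
      · exact hy h
    have hNa' : Nm (⟨x', y'⟩ : OO k 0) = x' ^ 2 + k * y' ^ 2 := by
      unfold Nm
      push_cast
      ring
    obtain ⟨-, hca2', -⟩ := n5 _ haN'
    have hodd' : ¬ (2 : ℤ) ∣ x' ^ 2 + k * y' ^ 2 := by
      intro h6
      rw [← hNa'] at h6
      have h7 : IsCoprime (Nm (⟨x', y'⟩ : OO k 0)) (2 : ℤ) := by
        have := cop_dvd hca2' (Dvd.intro _ rfl : 2 ∣ 2 * f)
        exact_mod_cast this
      have h8 := IsCoprime.isUnit_of_dvd' h7 h6 dvd_rfl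
      rw [Int.isUnit_iff] at h8
      omega
    -- `τ ^ 2`
    have hPP : Psi (τ * τ) (f * 2 ^ N * (M * (4 * l))) (sp ((⟨x', y'⟩ : OO k 0) * ⟨x', y'⟩)) := by
      have := (h5 k 0 _ hM2 h15M2).2.2.2.1 τ τ _ _ ha' ha'
      have e1 : sp (⟨x', y'⟩ : OO k 0) * sp ⟨x', y'⟩ = sp ((⟨x', y'⟩ : OO k 0) * ⟨x', y'⟩) :=
        Ideal.span_singleton_mul_span_singleton _ _
      rwa [e1] at this
    have hsq : (⟨x', y'⟩ : OO k 0) * ⟨x', y'⟩ = ⟨x' ^ 2 - k * y' ^ 2, 2 * x' * y'⟩ := by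
      apply ext'
      · rw [re_mul]
        change x' * x' - (k : ℤ) * y' * y' = x' ^ 2 - k * y' ^ 2
        ring
      · rw [im_mul]
        change x' * y' + y' * x' + ((0 : ℕ) : ℤ) * y' * y' = 2 * x' * y'
        push_cast
        ring
    have hv2 : (2 : OO k 0) ∣ (⟨x', y'⟩ : OO k 0) * ⟨x', y'⟩ - 1 := by
      rw [hsq, two_dvd_iff, QuadraticAlgebra.re_sub, QuadraticAlgebra.im_sub, re_one, im_one]
      change (2 : ℤ) ∣ x' ^ 2 - k * y' ^ 2 - 1 ∧ (2 : ℤ) ∣ 2 * x' * y' - 0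
      constructor
      · have e1 : x' ^ 2 - k * y' ^ 2 - 1 = (x' ^ 2 + k * y' ^ 2 - 1) - 2 * (k * y' ^ 2) := by ring
        rw [e1]
        refine dvd_sub ?_ (Dvd.intro _ rfl)
        rcases Int.even_or_odd (x' ^ 2 + k * y' ^ 2) with h | h
        · exact absurd h.two_dvd hodd'
        · obtain ⟨u, hu⟩ := h
          exact ⟨u, by rw [hu]; ring⟩
      · exact ⟨x' * y', by ring⟩
    have h4l0 : sp ((4 * l : ℕ) : OO k 0) ≠ ⊥ := by
      intro h
      have h5 : ((4 * l : ℕ) : OO k 0) = 0 := Ideal.span_singleton_eq_bot.1 h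
      have h6 := congrArg Nm h5
      rw [Nm_nat, Nm_zero] at h6
      have h7 : ((4 * l : ℕ) : ℤ) = 0 := pow_eq_zero_iff (two_ne_zero) |>.1 h6
      omega
    have hcore := core h3 h4 h6 hQ hQ2 (mul_mem hτ hτ) (mul_mem hK hK) hM2
      (h30F.mul_right _) hv2 hPP h4l0
      (Ideal.span_singleton_le_span_singleton.2 (Nat.cast_dvd_cast ⟨f * 2 ^ N * M, by ring⟩))
      (not_abv hQp hQ2 hlQ)
    -- the norm
    have hNl : (l : ℤ) ∣ x' ^ 2 + k * y' ^ 2 - 1 := by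
      have hl0 : NeZero l := ⟨hl.ne_zero⟩
      obtain ⟨ζ, hζ⟩ := HasEnoughRootsOfUnity.exists_primitiveRoot Om l
      have hdl : l ∣ f * 2 ^ N * (M * (4 * l)) := ⟨f * 2 ^ N * (M * 4), by ring⟩
      have h10 : τ ζ = ζ ^ NI (sp (⟨x', y'⟩ : OO k 0)) := by
        refine h7 k 0 τ _ _ hK hM2 h15M2 ha' ζ ?_
        obtain ⟨u, hu⟩ := hdl
        rw [hu, pow_mul, hζ.pow_eq_one, one_pow]
      have h11 : τ ζ = ζ := inertia_root hQp hlQ hl.pos hτ hζ.pow_eq_one
      rw [h11] at h10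
      have h12 : ζ ^ ((NI (sp (⟨x', y'⟩ : OO k 0)) : ℤ) - 1) = 1 := by
        rw [zpow_sub₀ (hζ.ne_zero hl.ne_zero), zpow_natCast, zpow_one, ← h10,
          div_self (hζ.ne_zero hl.ne_zero)]
      have h13 := (hζ.zpow_eq_one_iff_dvd _).1 h12
      rwa [(h0 k 0).2.2.2.1, hNa'] at h13
    refine arith hl (by omega) (k := k) ?_ hns hy' hodd' hNl ?_
    · have h4' : k % 4 ≠ 0 := by
        intro h
        have h5 : 2 * 2 ∣ k := by omega
        have := hksq 2 h5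
        rw [Nat.isUnit_iff] at this
        omega
      omega
    · rcases hcore with h | h
      · left
        have h10 := (nat_dvd_iff _ _).1 (Ideal.mem_span_singleton.1 h)
        rw [hsq, QuadraticAlgebra.re_sub, re_one] at h10
        exact_mod_cast h10.1
      · right
        have h10 := (nat_dvd_iff _ _).1 (Ideal.mem_span_singleton.1 h)
        rw [hsq, QuadraticAlgebra.re_add, re_one] at h10
        exact_mod_cast h10.1

end Pool.Agent.DS.H3
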