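import Pool.Agent.Lib.DS.H3.Spec
import Pool.Agent.Lib.MuZ.Ram

set_option autoImplicit false

/-!
# THEOREM DK (MP_d0239a_nt), Part H, module Alm (helper84)

A number field is unramified at almost all primes; this is `MuZ.ram`.
-/

open scoped Pointwise nonZeroDivisors

noncomputable section

namespace Pool.Agent.DS.H3

open Pool.Agent.MuZ Pool.Agent.FW NumberField IsDedekindDomain
open Pool.Agent.DI (io ofC io_inj exists_io io_ofC ofC_io VP MP UP TP ex sqr sqr_sq kap)
open Pool.Agent.DI.H3 (Sqs Nsq S_KAP S_hLeg S_hPrm)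
open Pool.Agent.DN

theorem tAlm : S_hAlm := by
  intro F hF
  obtain ⟨B, hB, h⟩ := Pool.Agent.MuZ.ram F hF
  exact ⟨B, hB, fun Q hQ hBQ ι hι => h Q hQ.1 hBQ hι⟩

end Pool.Agent.DS.H3
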