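import Pool.Agent.Lib.DS.H3.Spec

set_option autoImplicit false

/-!
# All imaginary quadratic fields, part H, module `Dg`: the prime ideal `(λ)`
-/

open scoped Pointwise nonZeroDivisors

noncomputable section

namespace Pool.Agent.DS.H3

open Pool.Agent.MuZ Pool.Agent.FW NumberField IsDedekindDomain
open Pool.Agent.DI (io ofC io_inj exists_io io_ofC ofC_io VP MP UP TP ex sqr sqr_sq kap)
open Pool.Agent.DI.H3 (Sqs Nsq S_KAP S_hLeg S_hPrm)
open Pool.Agent.DN

theorem tDg (h1 : S_O2) (h2 : S_hRdm) : S_hDg := by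
  intro k o _ f l la r hd
  obtain ⟨r1, r2, r3, r4, r5, r6, r7, r8, r9⟩ := h2 k o f l la r hd
  obtain ⟨-, -, n3, n4, -⟩ := h1 k o
  have hl : l.Prime := hd.hl
  have hfact : Fact l.Prime := ⟨hl⟩
  have hla0 : la ≠ 0 := by
    intro h
    have h0 := (n3 la).2 h
    rw [hd.hla] at h0
    exact hl.ne_zero (by exact_mod_cast h0)
  have hmem : ∀ x : OO k o, x ∈ sp la ↔ rd r x = 0 := fun x => by
    rw [hd.hker x]
    exact Ideal.mem_span_singleton
  refine ⟨⟨?_, ?_, hl, ?_⟩, ?_, ?_⟩
  · rw [Ideal.isPrime_iff]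
    refine ⟨?_, ?_⟩
    · intro h
      have h3 : (1 : OO k o) ∈ sp la := by rw [h]; exact Submodule.mem_top
      rw [hmem, r6] at h3
      exact one_ne_zero h3
    · intro x y hxy
      rw [hmem, r1] at hxy
      rw [hmem, hmem]
      exact mul_eq_zero.1 hxy
  · intro h
    exact hla0 (Ideal.span_singleton_eq_bot.1 h)
  · have h3 := n4 la
    rw [hd.hla] at h3
    exact_mod_cast h3
  · intro Q hQ
    have hP : Q.IsPrime := hQ.1
    constructor
    · intro h v hv
      obtain ⟨u, rfl⟩ := Ideal.mem_span_singleton.1 hv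
      rw [toO_mul]
      exact DI.MP.mul_right h (toO_VP u)
    · intro h
      exact h la (Ideal.mem_span_singleton_self la)
  · intro M hM
    exact Ideal.span_singleton_le_span_singleton.2 (r9.1.trans (Nat.cast_dvd_cast hM))

end Pool.Agent.DS.H3
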