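import Pool.Agent.Lib.DS.H3.Un
import Pool.Agent.Lib.DN.Ded

set_option autoImplicit false

/-!
# All imaginary quadratic fields, part H: the Galois action on `ε`

Module `Eps` (helper61): `tEps`, the statement `S_hEps` of `DN/H3/Spec.lean`; adapted from `DI/H3/Eps.lean`.
-/

open scoped Pointwise nonZeroDivisors

noncomputable section

namespace Pool.Agent.DS.H3

open Pool.Agent.MuZ Pool.Agent.FW NumberField IsDedekindDomain
open Pool.Agent.DI (io ofC io_inj exists_io io_ofC ofC_io VP MP UP TP ex sqr sqr_sq kap)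
open Pool.Agent.DI.H3 (Sqs Nsq S_KAP S_hLeg S_hPrm)
open Pool.Agent.DN

variable {k o : ℕ}

namespace EpsAux

private theorem toC_mem [SqN k o] (b : Ideal (OO k o)) (u : OO k o) : toC u ∈ Lam b :=
  fun v _ => ⟨v * u, (toC_mul v u).symm⟩

private theorem Tz_neg (f N : ℕ) (x : OO k o) : Tz f N (-x) = - Tz f N x := by
  unfold Tz
  rw [toC_neg, neg_div]

private theorem Tz_add [SqN k o] (f N : ℕ) (x y : OO k o) (hf : 0 < f) :
    Tz f N (x + ((f * 2 ^ N : ℕ) : OO k o) * y) = Tz f N x + toC y := by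
  have hm : ((f * 2 ^ N : ℕ) : ℂ) ≠ 0 :=
    Nat.cast_ne_zero.2 (Nat.mul_pos hf (pow_pos (by norm_num) N)).ne'
  unfold Tz
  rw [toC_add, toC_mul, toC_nat]
  field_simp

/-- The action on one factor. -/
private theorem key [SqN k o] (h1 : S_E10) (h2 : S_D8) (h5 : S_hHN) (h7 : S_hLat)
    (f N : ℕ) (m : Ideal (OO k o)) (T : Finset (OO k o)) (b : Ideal (OO k o)) (l : ℕ) (la : OO k o)
    (r : ZMod l) (D : Dat f N m T b l la r) (τ : Gal(Om/ℚ)) (a : OO k o)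
    (hP : Psi τ (f * 2 ^ N * l * NI m) (sp a)) (ha : HN f N a) (y : OO k o) (j : ℕ) :
    τ (Theta m b (Tz f N y + pL la j)) =
      Theta m b (Tz f N (a * y) + pL la ((rd r a * (j : ZMod l)).val)) := by
  have hf0 : 0 < f := D.hf.pos
  have hl0 : 0 < l := D.hl.pos
  have hm0 : ((f * 2 ^ N : ℕ) : ℂ) ≠ 0 :=
    Nat.cast_ne_zero.2 (Nat.mul_pos hf0 (pow_pos (by norm_num) N)).ne'
  have hlC : (l : ℂ) ≠ 0 := Nat.cast_ne_zero.2 hl0.ne'
  have hfin : Finite (OO k o ⧸ m) := Ideal.finiteQuotientOfFreeOfNeBot m D.hm0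
  have hNI : 0 < NI m := Nat.card_pos
  have hM1 : 0 < f * 2 ^ N * l := Nat.mul_pos (Nat.mul_pos hf0 (pow_pos (by norm_num) N)) hl0
  have hM : 0 < f * 2 ^ N * l * NI m := Nat.mul_pos hM1 hNI
  have hMC : ((f * 2 ^ N * l : ℕ) : ℂ) ≠ 0 := Nat.cast_ne_zero.2 hM1.ne'
  obtain ⟨ha0, hca, -⟩ := (h5 k o f N D.hf D.h3 D.N1).2.2.2.2 a ha
  have hca15 : Cop a 15 := cop_dvd hca (D.h3.trans (Dvd.intro_left _ rfl))
  obtain ⟨g1, g5, -, gT, -⟩ := h7 k o f l la r D.toDatL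
  have htor : Tor k o (Tz f N y + pL la j) := tor_add ⟨y, _, Nat.mul_pos hf0 (pow_pos (by norm_num) N), rfl⟩ (gT j)
  have e1 : Tz f N y + pL la j =
      toC (y * (l : OO k o) + ((f * 2 ^ N : ℕ) : OO k o) * ((j : OO k o) * cjO la)) / (f * 2 ^ N * l : ℕ) := by
    rw [g5 j, toC_add, toC_mul y, toC_nat, toC_mul ((f * 2 ^ N : ℕ) : OO k o), toC_nat,
      Nat.cast_mul (f * 2 ^ N) l]
    unfold Tz
    field_simp
  have e2 : toC a * (Tz f N y + pL la j) = Tz f N (a * y) + toC a * pL la j := by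
    rw [mul_add]
    congr 1
    unfold Tz
    rw [toC_mul, mul_div_assoc]
  have hL : ((f * 2 ^ N * l * NI m : ℕ) : ℂ) * (Tz f N y + pL la j) ∈ Lam b := by
    rw [e1, Nat.cast_mul (f * 2 ^ N * l) (NI m)]
    have e3 : ((f * 2 ^ N * l : ℕ) : ℂ) * (NI m : ℂ) *
        (toC (y * (l : OO k o) + ((f * 2 ^ N : ℕ) : OO k o) * ((j : OO k o) * cjO la)) / (f * 2 ^ N * l : ℕ)) =
        toC (((NI m : ℕ) : OO k o) *
          (y * (l : OO k o) + ((f * 2 ^ N : ℕ) : OO k o) * ((j : OO k o) * cjO la))) := by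
      rw [toC_mul ((NI m : ℕ) : OO k o), toC_nat]
      field_simp
    rw [e3]
    exact toC_mem b _
  have hne : NeZero l := ⟨hl0.ne'⟩
  obtain ⟨x, hx⟩ := g1 a j ((rd r a * (j : ZMod l)).val) (ZMod.natCast_zmod_val _)
  obtain ⟨-, d2, d3, -⟩ := h2 k o m b D.hm0 D.g15 D.hm2 D.m15
  rw [((h1 k o τ _ (sp a) hM ((fif_dvd' D.h3 N l).mul_right _) hP).2 m b D.hm0 D.g15 D.hm2 D.m15
      (dvd_mul_left _ _) _ hL).2, d3 a _ ha0 hca15 htor, e2, hx,
    ← add_assoc]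
  exact (d2 _).2 _ (toC_mem b x)

/-- The product over one set of residues. -/
private theorem key2 [SqN k o] (h1 : S_E10) (h2 : S_D8) (h4 : S_hRdm) (h5 : S_hHN) (h6 : S_hTP)
    (h7 : S_hLat) (f N : ℕ) (m : Ideal (OO k o)) (T : Finset (OO k o)) (b : Ideal (OO k o)) (l : ℕ)
    (la : OO k o) (r : ZMod l) (D : Dat f N m T b l la r) (τ : Gal(Om/ℚ)) (a : OO k o)
    (hP : Psi τ (f * 2 ^ N * l * NI m) (sp a)) (ha : HN f N a) (J J' : Finset ℕ)
    (hJ : ∀ G : ℕ → Om, ∏ j ∈ J, G ((rd r a * (j : ZMod l)).val) = ∏ j ∈ J', G j)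
    (hJ' : ∀ u : ZMod l, u ≠ 0 → IsSquare u → ∀ G : ℕ → Om,
      ∏ j ∈ J', G ((u * (j : ZMod l)).val) = ∏ j ∈ J', G j) :
    τ (epq f N m T b la J) = epq f N m T b la J' := by
  have hf0 : 0 < f := D.hf.pos
  have hl0 : 0 < l := D.hl.pos
  have hne : NeZero l := ⟨hl0.ne'⟩
  obtain ⟨g1, -, -, gT, -⟩ := h7 k o f l la r D.toDatL
  obtain ⟨-, -, -, d4, -, d6, d7, -, -, d10⟩ := h4 k o f l la r D.toDatL
  obtain ⟨-, t2, -, -⟩ := h2 k o m b D.hm0 D.g15 D.hm2 D.m15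
  have hD : ∀ z : ℂ, Theta m b (-z) = Theta m b z ∧
      ∀ x : OO k o, Theta m b (z + toC x) = Theta m b z := fun z =>
    ⟨(t2 z).1, fun x => (t2 z).2 _ (toC_mem b x)⟩
  have hev : ∀ e x : OO k o, Nm e = 1 → ∏ j ∈ J', Theta m b (Tz f N (e * x) + pL la j) =
      ∏ j ∈ J', Theta m b (Tz f N x + pL la j) := by
    intro e x he
    rw [← hJ' (rd r e) (d7 e (unit_cop he l)) (d10 e he)
      (fun j => Theta m b (Tz f N (e * x) + pL la j))]
    refine Finset.prod_congr rfl fun j _ => ?_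
    obtain ⟨y, hy⟩ := g1 e j ((rd r e * (j : ZMod l)).val) (ZMod.natCast_zmod_val _)
    have htor : Tor k o (Tz f N x + pL la j) :=
      tor_add ⟨x, _, Nat.mul_pos hf0 (pow_pos (by norm_num) N), rfl⟩ (gT j)
    have e1 : (Tz f N (e * x) + pL la ((rd r e * (j : ZMod l)).val)) + toC y =
        toC e * (Tz f N x + pL la j) := by
      rw [mul_add, hy]
      unfold Tz
      rw [toC_mul]
      ring
    rw [← (hD _).2 y, e1]
    exact theta_unit h2 D.hm0 D.g15 D.hm2 D.m15 he htor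
  have hper : ∀ x y : OO k o,
      ∏ j ∈ J', Theta m b (Tz f N (x + ((f * 2 ^ N : ℕ) : OO k o) * y) + pL la j) =
      ∏ j ∈ J', Theta m b (Tz f N x + pL la j) := by
    intro x y
    refine Finset.prod_congr rfl fun j _ => ?_
    have e1 : Tz f N (x + ((f * 2 ^ N : ℕ) : OO k o) * y) + pL la j =
        (Tz f N x + pL la j) + toC y := by
      rw [Tz_add f N _ _ hf0]
      ring
    rw [e1, (hD _).2 y]
  have hN1 : 1 ≤ N := D.N1
  have h8 := h6 k o f N T a (fun x => ∏ j ∈ J', Theta m b (Tz f N x + pL la j)) D.hf D.h3 hN1 D.hT ha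
    hev hper
  unfold epq
  rw [← h8, map_prod]
  refine Finset.prod_congr rfl fun t _ => ?_
  rw [map_prod, ← hJ (fun j => Theta m b (Tz f N (a * t) + pL la j))]
  refine Finset.prod_congr rfl fun j _ => ?_
  rw [key h1 h2 h5 h7 f N m T b l la r D τ a hP ha t j]

end EpsAux

/-- **Galois action on `ε`.** -/
theorem tEps (h1 : S_E10) (h2 : S_D8) (h3 : S_hSq) (h4 : S_hRdm) (h5 : S_hHN) (h6 : S_hTP)
    (h7 : S_hLat) : S_hEps := by
  intro k o _ f N m T b l la r D τ a hP ha hca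
  obtain ⟨-, -, -, -, -, -, d7, -⟩ := h4 k o f l la r D.toDatL
  have hra : rd r a ≠ 0 := d7 a hca
  have hfact : Fact l.Prime := ⟨D.hl⟩
  obtain ⟨-, -, -, -, -, -, -, -, s9⟩ := h3 l D.hl D.hl4
  have q := fun (u : ZMod l) (hu : u ≠ 0) (G : ℕ → Om) => s9 u G hu
  have p := fun G : ℕ → Om => s9 (rd r a) G hra
  have K := EpsAux.key2 h1 h2 h4 h5 h6 h7 f N m T b l la r D τ a hP ha
  refine ⟨fun hs => ⟨?_, ?_⟩, fun hs => ⟨?_, ?_⟩⟩
  · exact K _ _ (fun G => (p G).1 hs) (fun u hu hs' G => (q u hu G).1 hs')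
  · exact K _ _ (fun G => (p G).2.1 hs) (fun u hu hs' G => (q u hu G).2.1 hs')
  · exact K _ _ (fun G => (p G).2.2.1 hs) (fun u hu hs' G => (q u hu G).2.1 hs')
  · exact K _ _ (fun G => (p G).2.2.2 hs) (fun u hu hs' G => (q u hu G).1 hs')

end Pool.Agent.DS.H3
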