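import Pool.Agent.Lib.DS.H3.Spec

set_option autoImplicit false

/-!
# All imaginary quadratic fields, part H3, module `Fix`: Galois theory of `Mn k o f N`
-/

open scoped Pointwise nonZeroDivisors

noncomputable section

namespace Pool.Agent.DS.H3

open Pool.Agent.MuZ Pool.Agent.FW NumberField IsDedekindDomain
open Pool.Agent.DI (io ofC io_inj exists_io io_ofC ofC_io VP MP UP TP ex sqr sqr_sq kap)
open Pool.Agent.DI.H3 (Sqs Nsq S_KAP S_hLeg S_hPrm)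
open Pool.Agent.DN

theorem tFix (h1 : S_E1) (h2 : S_E9) (h3 : S_GM) (h4 : S_hPri) : S_hFix := by
  intro k o _ f N hf h3f hN
  have hf0 : 0 < f := hf.pos
  have hM : 0 < f * 2 ^ N := by positivity
  obtain ⟨-, -, -, hKf, hfin, -, hfix, -⟩ := h3 k o f hf h3f
  have key : ∀ τ : Gal(Om/ℚ), τ ∈ (Mn k o f N).fixingSubgroup ↔ ∀ x ∈ Mn k o f N, τ x = x :=
    fun τ => IntermediateField.mem_fixingSubgroup_iff (Mn k o f N) τ
  have hKQ : KQ k o ≤ Mn k o f N := hKf.trans (hfin N hN).2.1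
  have hGK : ∀ τ : Gal(Om/ℚ), τ ∈ (Mn k o f N).fixingSubgroup → τ ∈ GK k o := by
    intro τ hτ
    rw [key] at hτ
    exact (IntermediateField.mem_fixingSubgroup_iff (KQ k o) τ).2 fun x hx => hτ x (hKQ hx)
  have hiff : ∀ τ : Gal(Om/ℚ), τ ∈ (Mn k o f N).fixingSubgroup ↔
      τ ∈ GK k o ∧ ∀ c : Ideal (OO k o), Psi τ (f * 2 ^ N) c → HPN f N c := by
    intro τ
    constructor
    · intro hτ
      have hG := hGK τ hτ
      exact ⟨hG, fun c hc => (hfix N hN τ hG c hc).1 ((key τ).1 hτ)⟩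
    · rintro ⟨hG, hτ⟩
      obtain ⟨c, hc⟩ := (h1 k o (f * 2 ^ N) hM (fif_dvd h3f N)).1 τ hG
      exact (key τ).2 ((hfix N hN τ hG c hc).2 (hτ c hc))
  refine ⟨(hfin N hN).1, hiff, ?_, ?_⟩
  · intro σ _ τ hτ
    rw [key] at hτ ⊢
    intro x hx
    have h6 : σ⁻¹ x ∈ Mn k o f N := (h2 k o f hf.pos h3f).2.1 N σ⁻¹ hN x hx
    have h7 := hτ _ h6
    rw [AlgEquiv.mul_apply, AlgEquiv.mul_apply, h7]
    exact AlgEquiv.apply_symm_apply σ x
  · intro τ hτ M hM0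
    have hG := hGK τ hτ
    have hMM : 0 < f * 2 ^ N * M := Nat.mul_pos hM hM0
    obtain ⟨c, hc⟩ := (h1 k o (f * 2 ^ N * M) hMM (fif_dvd' h3f N M)).1 τ hG
    have hc' : Psi τ (f * 2 ^ N) c :=
      (h1 k o (f * 2 ^ N * M) hMM (fif_dvd' h3f N M)).2.2.2.2 τ (f * 2 ^ N) c hc (Nat.dvd_mul_right _ _)
        (fif_dvd h3f N)
    obtain ⟨γ, rfl, hγ⟩ := (h4 k o f N hf h3f hN c).1 (((hiff τ).1 hτ).2 c hc')
    exact ⟨γ, hγ, hc⟩

end Pool.Agent.DS.H3
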