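import Pool.Agent.Lib.DS.H3.Spec

set_option autoImplicit false

/-!
# All imaginary quadratic fields, part H3: good points for `Theta`
-/

open scoped Pointwise nonZeroDivisors

noncomputable section

namespace Pool.Agent.DS.H3

open Pool.Agent.MuZ Pool.Agent.FW NumberField IsDedekindDomain
open Pool.Agent.DI (io ofC io_inj exists_io io_ofC ofC_io VP MP UP TP ex sqr sqr_sq kap)
open Pool.Agent.DI.H3 (Sqs Nsq S_KAP S_hLeg S_hPrm)
open Pool.Agent.DN

namespace GdAux

private theorem odd_mul {a b : ℤ} (ha : ¬ (2 : ℤ) ∣ a) (hb : ¬ (2 : ℤ) ∣ b) : ¬ (2 : ℤ) ∣ a * b :=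
  fun h => (Int.prime_two.dvd_or_dvd h).elim ha hb

private theorem odd_one {k o : ℕ} {v : OO k o} (h : ((2 : ℕ) : OO k o) ∣ v - 1) : ¬ (2 : ℤ) ∣ Nm v := by
  intro h2
  have h3 := Nm_congr h
  rw [Nm_one] at h3
  have h4 := dvd_sub h2 h3
  rw [sub_sub_cancel] at h4
  norm_num at h4

private theorem toC_mem {k o : ℕ} [SqN k o] (b : Ideal (OO k o)) (v : OO k o) : toC v ∈ Lam b :=
  lam_anti le_top (lam_top.2 ⟨v, rfl⟩)

/-- a point `y / 2^N` with `Nm y` odd is not in the lattice -/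
private theorem not_lat {k o : ℕ} [SqN k o] {b : Ideal (OO k o)} {N : ℕ} (hN : 1 ≤ N) {y e : OO k o}
    (heb : e ∈ b) (he : ¬ (2 : ℤ) ∣ Nm e) (hy : ¬ (2 : ℤ) ∣ Nm y) :
    toC y / ((2 ^ N : ℕ) : ℂ) ∉ Lam b := by
  intro h
  obtain ⟨c, hc⟩ := h e heb
  have h20 : ((2 ^ N : ℕ) : ℂ) ≠ 0 := by push_cast; exact pow_ne_zero _ two_ne_zero
  have h3 : e * y = ((2 ^ N : ℕ) : OO k o) * c := by
    apply toC_inj
    rw [toC_mul, toC_mul, toC_nat, ← hc]
    field_simp
  have h4 : Nm e * Nm y = ((2 ^ N : ℕ) : ℤ) ^ 2 * Nm c := by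
    rw [← Nm_mul, h3, Nm_mul, Nm_nat]
  apply odd_mul he hy
  rw [h4]
  refine Dvd.dvd.mul_right ?_ _
  have h5 : (2 : ℤ) ∣ ((2 ^ N : ℕ) : ℤ) := by
    obtain ⟨M, rfl⟩ : ∃ M, N = M + 1 := ⟨N - 1, by omega⟩
    push_cast
    exact ⟨2 ^ M, by ring⟩
  exact h5.mul_right _ |>.trans (by rw [sq])

end GdAux

theorem tGd (h1 : S_O6) : S_hGd := by
  intro k o _ f N m b x la j hf hN hm hmP hb hbP hx hla
  obtain ⟨-, -, -, -, hel⟩ := h1 k o
  obtain ⟨μ, hμm, hμ0, hμ1⟩ := hel 2 m (by norm_num) hm hmP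
  obtain ⟨e, heb, he0, he1⟩ := hel 2 b (by norm_num) hb hbP
  have hμ := GdAux.odd_one hμ1
  have he := GdAux.odd_one he1
  have hfn : 0 < f := hf.pos
  have hf0 : (f : ℂ) ≠ 0 := by exact_mod_cast hfn.ne'
  have h20 : ((2 ^ N : ℕ) : ℂ) ≠ 0 := by push_cast; exact pow_ne_zero _ two_ne_zero
  have hla0 : la ≠ 0 := by
    rintro rfl
    apply hla
    rw [Nm_zero]
    exact dvd_zero _
  have hlaC : toC la ≠ 0 := toC_ne hla0
  have hodd : ¬ (2 : ℤ) ∣ Nm (la * μ * x) := by
    rw [Nm_mul, Nm_mul]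
    exact GdAux.odd_mul (GdAux.odd_mul hla hμ) hx
  have hkey := GdAux.not_lat hN heb he hodd
  have hTz : Tor k o (Tz f N x) := tor_div (by positivity) x
  have hTp : ∀ i : ℕ, Tor k o (pL la i) := by
    intro i
    have hNm := Nm_pos hla0
    obtain ⟨n, hn⟩ : ∃ n : ℕ, (n : ℤ) = Nm la := ⟨(Nm la).toNat, Int.toNat_of_nonneg hNm.le⟩
    refine ⟨(i : OO k o) * cjO la, n, by omega, ?_⟩
    have h5 : ((n : ℕ) : ℂ) = toC la * toC (cjO la) := by
      rw [← toC_Nm, ← hn]
      simp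
    have h6 : toC (cjO la) ≠ 0 := by
      intro h
      rw [h, mul_zero] at h5
      have h7 : n = 0 := by exact_mod_cast h5
      omega
    unfold pL
    rw [h5, toC_mul, toC_nat]
    field_simp
  -- the computation
  have hz : ∀ (i : ℕ) (u : ℂ), toC μ * u ∈ Lam b → ∃ w w' : ℂ, w ∈ Lam b ∧ w' ∈ Lam b ∧
      toC ((f : OO k o) * la * μ) * (Tz f N x + pL la i + u) =
        toC (la * μ * x) / ((2 ^ N : ℕ) : ℂ) + w ∧
      toC ((2 : OO k o) ^ N * ((f : OO k o) * la * μ)) * (Tz f N x + pL la i + u) = w' := by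
    intro i u hu
    have e1 : toC ((f : OO k o) * la * μ) * (Tz f N x + pL la i + u) =
        toC (la * μ * x) / ((2 ^ N : ℕ) : ℂ) + (toC ((f : OO k o) * μ * (i : OO k o)) +
          toC ((f : OO k o) * la) * (toC μ * u)) := by
      unfold Tz pL
      simp only [toC_mul, toC_nat]
      push_cast at h20 ⊢
      field_simp
      ring
    have hw : toC ((f : OO k o) * μ * (i : OO k o)) + toC ((f : OO k o) * la) * (toC μ * u) ∈ Lam b :=
      lam_add (GdAux.toC_mem b _) (lam_mul _ hu)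
    refine ⟨_, _, hw, ?_, e1, rfl⟩
    have e2 : toC ((2 : OO k o) ^ N * ((f : OO k o) * la * μ)) * (Tz f N x + pL la i + u) =
        toC (la * μ * x) + toC ((2 : OO k o) ^ N) * (toC ((f : OO k o) * μ * (i : OO k o)) +
          toC ((f : OO k o) * la) * (toC μ * u)) := by
      rw [toC_mul ((2 : OO k o) ^ N), mul_assoc, e1, mul_add]
      congr 1
      rw [toC_pow, toC_two]
      push_cast at h20 ⊢
      field_simp
    rw [e2]
    exact lam_add (GdAux.toC_mem b _) (lam_mul _ hw)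
  have hgd : ∀ i : ℕ, Gd m b (Tz f N x + pL la i) := by
    intro i
    refine ⟨tor_add hTz (hTp i), ?_⟩
    intro Q hQ hQ2 u hu hq
    have : Q.IsPrime := hQ.1
    obtain ⟨w, w', hw, hw', e1, e2⟩ := hz i u (lam_prod.1 hu μ hμm)
    have hα : ¬ MP Q (toO ((2 : OO k o) ^ N)) := by
      intro h
      rw [toO_pow] at h
      have h4 := DI.MP.of_pow h
      have h5 : toO (2 : OO k o) = 2 := by
        have := toO_nat (n := k) (t := o) 2
        exact_mod_cast this
      rw [h5] at h4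
      exact hQ2 h4
    have h5 := hq _ _ hα (by rw [e2]; exact hw')
    rw [e1] at h5
    apply hkey
    have h6 := lam_sub h5 hw
    rwa [add_sub_cancel_right] at h6
  have hp0 : pL la 0 = 0 := by
    unfold pL
    rw [Nat.cast_zero, zero_div]
  have hmem : ∀ z : ℂ, z ∈ Lam (sp la * m * b) → toC (la * μ) * z ∈ Lam b := by
    intro z hz'
    exact lam_prod.1 hz' (la * μ) (Ideal.mul_mem_mul (Ideal.mem_span_singleton_self la) hμm)
  have hlat : toC (la * μ) * Tz f N x ∉ Lam b := by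
    intro h
    apply hkey
    have h4 := lam_mul (f : OO k o) h
    have e' : toC (f : OO k o) * (toC (la * μ) * Tz f N x) =
        toC (la * μ * x) / ((2 ^ N : ℕ) : ℂ) := by
      unfold Tz
      simp only [toC_mul, toC_nat]
      push_cast at h20 ⊢
      field_simp
    rwa [e'] at h4
  refine ⟨hgd j, ?_, fun h => hlat (hmem _ h), ?_⟩
  · have := hgd 0
    rwa [hp0, add_zero] at this
  · intro h
    apply hlat
    have h' := hmem _ h
    have e' : toC (la * μ) * (Tz f N x + pL la j) = toC (la * μ) * Tz f N x + toC (μ * (j : OO k o)) := by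
      unfold pL
      simp only [toC_mul, toC_nat]
      field_simp
    rw [e'] at h'
    have h6 := lam_sub h' (GdAux.toC_mem b (μ * (j : OO k o)))
    rwa [add_sub_cancel_right] at h6

end Pool.Agent.DS.H3
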