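import Pool.Agent.Lib.DS.H3.Spec

/-!
# All imaginary quadratic fields, part H: the group `H_N` (from helper50's file in `DK/H3`)
-/

set_option autoImplicit false

open scoped Pointwise nonZeroDivisors

noncomputable section

namespace Pool.Agent.DS.H3

open Pool.Agent.MuZ Pool.Agent.FW NumberField IsDedekindDomain
open Pool.Agent.DI (io ofC io_inj exists_io io_ofC ofC_io VP MP UP TP ex sqr sqr_sq kap)
open Pool.Agent.DI.H3 (Sqs Nsq S_KAP S_hLeg S_hPrm)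
open Pool.Agent.DN

variable {k o : ℕ}

private theorem HN_up {f : ℕ} {a : OO k o} {i : ℕ} (h : (f : OO k o) ∣ a ^ 2 ^ i - 1) (j : ℕ) :
    (f : OO k o) ∣ a ^ 2 ^ (i + j) - 1 := by
  have h1 : a ^ 2 ^ i - 1 ∣ (a ^ 2 ^ i) ^ 2 ^ j - 1 := by
    have := sub_dvd_pow_sub_pow (a ^ 2 ^ i) 1 (2 ^ j)
    rwa [one_pow] at this
  have h2 := h.trans h1
  rwa [← pow_mul, ← pow_add] at h2

private theorem HN_Hfmul {f : ℕ} {a b : OO k o} (ha : Hf f a) (hb : Hf f b) : Hf f (a * b) := by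
  obtain ⟨ha1, i, hi⟩ := ha
  obtain ⟨hb1, j, hj⟩ := hb
  refine ⟨cop_mul ha1 hb1, i + j, ?_⟩
  have h1 := HN_up hi j
  have h2 := HN_up hj i
  rw [add_comm j i] at h2
  have e : (a * b) ^ 2 ^ (i + j) - 1 =
      (a ^ 2 ^ (i + j) - 1) * b ^ 2 ^ (i + j) + (b ^ 2 ^ (i + j) - 1) := by
    rw [mul_pow]
    ring
  rw [e]
  exact dvd_add (Dvd.dvd.mul_right h1 _) h2

private theorem HN_pm {M x y : ℤ} (hx : M ∣ x - 1 ∨ M ∣ x + 1) (hy : M ∣ y - 1 ∨ M ∣ y + 1) :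
    M ∣ x * y - 1 ∨ M ∣ x * y + 1 := by
  rcases hx with ⟨c, hc⟩ | ⟨c, hc⟩ <;> rcases hy with ⟨d, hd⟩ | ⟨d, hd⟩
  · exact Or.inl ⟨c * y + d, by linear_combination y * hc + hd⟩
  · exact Or.inr ⟨c * y + d, by linear_combination y * hc + hd⟩
  · exact Or.inr ⟨c * y - d, by linear_combination y * hc - hd⟩
  · exact Or.inl ⟨c * y - d, by linear_combination y * hc - hd⟩

private theorem HN_per {f N : ℕ} (hN : 1 ≤ N) {a b : OO k o} (ha : HN f N a)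
    (h : ((f * 2 ^ N : ℕ) : OO k o) ∣ a - b) : HN f N b := by
  obtain ⟨⟨ha1, i, hi⟩, ha2⟩ := ha
  have hf : ((2 * f : ℕ) : OO k o) ∣ a - b := by
    refine dvd_trans ?_ h
    obtain ⟨N, rfl⟩ := Nat.exists_eq_add_of_le hN
    refine ⟨((2 ^ N : ℕ) : OO k o), ?_⟩
    rw [← Nat.cast_mul]
    congr 1
    ring
  refine ⟨⟨cop_congr hf ha1, i, ?_⟩, ?_⟩
  · have h1 := hf.trans (sub_dvd_pow_sub_pow a b (2 ^ i))
    have e : b ^ 2 ^ i - 1 = (a ^ 2 ^ i - 1) - (a ^ 2 ^ i - b ^ 2 ^ i) := by ring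
    rw [e]
    exact dvd_sub hi h1
  · have h1 := Nm_congr h
    have h2 : (2 : ℤ) ^ N ∣ Nm a - Nm b := by
      refine dvd_trans ?_ h1
      push_cast
      exact Dvd.intro_left _ rfl
    rcases ha2 with h3 | h3
    · left
      have e : Nm b - 1 = (Nm a - 1) - (Nm a - Nm b) := by ring
      rw [e]
      exact dvd_sub h3 h2
    · right
      have e : Nm b + 1 = (Nm a + 1) - (Nm a - Nm b) := by ring
      rw [e]
      exact dvd_sub h3 h2

private theorem HN_cop2 {N : ℕ} {x : ℤ} (h : (2 : ℤ) ^ N ∣ x - 1 ∨ (2 : ℤ) ^ N ∣ x + 1) :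
    IsCoprime x ((2 : ℤ) ^ N) := by
  rcases h with ⟨c, hc⟩ | ⟨c, hc⟩
  · exact ⟨1, -c, by linear_combination hc⟩
  · exact ⟨-1, c, by linear_combination -hc⟩

/-- The group `H_N`. -/
theorem tHN : S_hHN := by
  intro k o _ f N hf h3 hN
  refine ⟨⟨⟨cop_one _, 0, by simp⟩, Or.inl (by rw [Nm_one]; simp)⟩,
    ⟨⟨cop_neg (cop_one _), 1, by simp⟩, Or.inl (by rw [Nm_neg, Nm_one]; simp)⟩, ?_,
    fun a b ha h => HN_per hN ha h, ?_⟩
  · intro a b ha hb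
    refine ⟨HN_Hfmul ha.1 hb.1, ?_⟩
    rw [Nm_mul]
    exact HN_pm ha.2 hb.2
  · intro a ha
    refine ⟨?_, ha.1.1, ?_⟩
    · rintro rfl
      have h1 : IsCoprime (Nm (0 : OO k o)) ((2 * f : ℕ) : ℤ) := ha.1.1
      rw [Nm_zero, isCoprime_zero_left] at h1
      have h2 := Int.isUnit_iff.1 h1
      omega
    · have h1 : IsCoprime (Nm a) (f : ℤ) := cop_dvd ha.1.1 (Dvd.intro_left _ rfl)
      have h2 := HN_cop2 ha.2
      unfold Cop
      push_cast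
      exact h1.mul_right h2

end Pool.Agent.DS.H3
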