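import Pool.Agent.Lib.DS.H3.Un

set_option autoImplicit false

/-!
# All imaginary quadratic fields, part H, module `Nrm`: the norm relation
-/

open scoped Pointwise nonZeroDivisors

noncomputable section

namespace Pool.Agent.DS.H3

open Pool.Agent.MuZ Pool.Agent.FW NumberField IsDedekindDomain
open Pool.Agent.DI (io ofC io_inj exists_io io_ofC ofC_io VP MP UP TP ex sqr sqr_sq kap)
open Pool.Agent.DI.H3 (Sqs Nsq S_KAP S_hLeg S_hPrm)
open Pool.Agent.DN

namespace NrmAux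

variable {k o : ℕ}

theorem tor (f N : ℕ) (hf : Odd f) (x : OO k o) : Tor k o (Tz f N x) :=
  ⟨x, f * 2 ^ N, Nat.mul_pos hf.pos (pow_pos two_pos N), rfl⟩

theorem neg (f N : ℕ) (x : OO k o) : Tz f N (-x) = -Tz f N x := by
  unfold Tz
  rw [toC_neg, neg_div]

theorem add [SqN k o] (f N : ℕ) (hf : Odd f) (x y : OO k o) :
    Tz f N (x + ((f * 2 ^ N : ℕ) : OO k o) * y) = Tz f N x + toC y := by
  have h0 : ((f * 2 ^ N : ℕ) : ℂ) ≠ 0 :=
    Nat.cast_ne_zero.2 (Nat.mul_pos hf.pos (pow_pos two_pos N)).ne'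
  unfold Tz
  rw [toC_add, toC_mul, toC_nat, add_div, mul_div_cancel_left₀ _ h0]

theorem mul [SqN k o] (f N : ℕ) (x y : OO k o) : Tz f N (x * y) = toC x * Tz f N y := by
  unfold Tz
  rw [toC_mul, mul_div_assoc]

theorem pL0 (la : OO k o) : pL la 0 = 0 := by
  unfold pL
  rw [Nat.cast_zero, zero_div]

end NrmAux

theorem tNrm (h1 : S_O6) (h2 : S_D7) (h3 : S_D8) (h4 : S_G3) (h5 : S_hSq) (h6 : S_hLat) (h7 : S_hGd)
    (h8 : S_hUni) (h9 : S_hTP) : S_hNrm := by
  intro k o _ f N m T b l la r D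
  obtain ⟨-, hmul, -, hsp, -⟩ := h1 k o
  obtain ⟨-, hodd, hu⟩ := h8 k o f N m T b l la r D
  obtain ⟨-, -, -, -, -, -, hprod, -⟩ := h5 l D.hl D.hl4
  obtain ⟨-, -, -, -, hinj, hb⟩ := h6 k o f l la r D.toDatL
  obtain ⟨-, hsys⟩ := hb b D.hb0 D.hlb
  have hf := D.hf
  have hN1 : 1 ≤ N := D.N1
  have hu0 : uN f N m T b ≠ 0 := (h4 k o f m N T hf D.h3 D.hm0 D.hm2 D.hmf D.hN D.hT b D.hb0 D.hb).2.1
  have hla2 : ¬ (2 : ℤ) ∣ Nm la := by
    rw [D.hla]
    have := D.hl4
    omega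
  have hb2 : PrI b 2 := ((hmul 2 f b).1 D.hb).1
  have hla0 : la ≠ 0 := by
    intro h
    have h0 := D.hla
    rw [h, Nm_zero] at h0
    have := D.hl.pos
    omega
  have hspla : sp la ≠ ⊥ := by
    intro h
    exact hla0 (Ideal.span_singleton_eq_bot.1 h)
  have hsp2 : PrI (sp la) 2 := by
    refine (hsp 2 la (by norm_num)).2 ?_
    unfold Cop
    rw [D.hla]
    refine (Int.isCoprime_iff_gcd_eq_one.2 ?_)
    have h5 := D.hl4
    have h6 : Nat.Coprime l 2 := by
      rw [Nat.coprime_two_right, Nat.odd_iff]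
      omega
    exact h6
  have hla15 : Cop la 15 := by
    have h6 : Nat.Coprime l 15 := D.hlf.coprime_dvd_right D.h3
    unfold Cop
    rw [D.hla]
    exact Int.isCoprime_iff_gcd_eq_one.2 h6
  have hsp15 : PrI (sp la) 15 := (hsp 15 la (by norm_num)).2 hla15
  have htop : sp la ⊔ m = ⊤ := by
    have hm : m ⊔ Ideal.span {((l : ℕ) : OO k o)} = ⊤ := D.hlm
    rw [eq_top_iff, ← hm]
    refine sup_le le_sup_right (le_trans ?_ le_sup_left)
    rw [Ideal.span_singleton_le_span_singleton]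
    refine ⟨cjO la, ?_⟩
    rw [mul_cjO, D.hla]
    simp
  -- the relation for one element of `T`
  have hone : ∀ t ∈ T, Theta m b (Tz f N t) *
      (∏ j ∈ Sqs l, Theta m b (Tz f N t + pL la j)) *
      (∏ j ∈ Nsq l, Theta m b (Tz f N t + pL la j)) = Theta m b (Tz f N (la * t)) := by
    intro t ht
    have hgd := h7 k o f N m b t la 0 hf hN1 D.hm0 D.hm2 D.hb0 hb2 (hodd t ht) hla2
    have hd := (h2 k o m b D.hm0 D.g15 D.hm2 D.m15).1 (sp la) _ hspla hsp2 hsp15 htop hsys (Tz f N t)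
      (NrmAux.tor f N hf t) hgd.2.2.1
    rw [Finset.prod_image hinj, hprod, NrmAux.pL0, add_zero] at hd
    rw [hd, (h3 k o m b D.hm0 D.g15 D.hm2 D.m15).2.2.1 la _ hla0 hla15 (NrmAux.tor f N hf t), NrmAux.mul f N la t]
  have hD8 := (h3 k o m b D.hm0 D.g15 D.hm2 D.m15).2.1
  have hTP := h9 k o f N T la (fun x => Theta m b (Tz f N x)) hf D.h3 hN1 D.hT D.hHN
    (fun e x he => by
      rw [NrmAux.mul]
      exact theta_unit h3 D.hm0 D.g15 D.hm2 D.m15 he (NrmAux.tor f N hf x))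
    (fun x y => by
      rw [NrmAux.add f N hf]
      exact (hD8 _).2 _ (lam_anti le_top (lam_top.2 ⟨y, rfl⟩)))
  have hall : uN f N m T b * (epq f N m T b la (Sqs l) * epq f N m T b la (Nsq l)) =
      uN f N m T b * 1 := by
    calc uN f N m T b * (epq f N m T b la (Sqs l) * epq f N m T b la (Nsq l))
        = ∏ t ∈ T, (Theta m b (Tz f N t) *
            (∏ j ∈ Sqs l, Theta m b (Tz f N t + pL la j)) *
            (∏ j ∈ Nsq l, Theta m b (Tz f N t + pL la j))) := by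
          rw [Finset.prod_mul_distrib, Finset.prod_mul_distrib, hu]
          unfold epq
          ring
      _ = ∏ t ∈ T, Theta m b (Tz f N (la * t)) := Finset.prod_congr rfl hone
      _ = ∏ t ∈ T, Theta m b (Tz f N t) := hTP
      _ = uN f N m T b * 1 := by
          rw [hu, mul_one]
  exact mul_left_cancel₀ hu0 hall

end Pool.Agent.DS.H3
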