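import Pool.Agent.Lib.DS.H3.Spec

/-!
# All imaginary quadratic fields, part H: the classes in `HPN` are principal ideals
-/

set_option autoImplicit false

open scoped Pointwise nonZeroDivisors

noncomputable section

namespace Pool.Agent.DS.H3

open Pool.Agent.MuZ Pool.Agent.FW NumberField IsDedekindDomain
open Pool.Agent.DI (io ofC io_inj exists_io io_ofC ofC_io VP MP UP TP ex sqr sqr_sq kap)
open Pool.Agent.DN

variable {k o : ℕ}

theorem tPri (h1 : S_hHN) : S_hPri := by
  intro k o _ f N hf h3 hN c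
  obtain ⟨_, _, _, hper, hcop⟩ := h1 k o f N hf h3 hN
  constructor
  · rintro ⟨v, -, hv, α, α', hα, -, hcα, -, hd, he⟩
    have h2 : α' * v ∈ Ideal.span {α} * c := by
      rw [he]
      exact Ideal.mul_mem_mul (Ideal.mem_span_singleton_self α') (Ideal.mem_span_singleton_self v)
    obtain ⟨γ, -, hγ⟩ := Ideal.mem_span_singleton_mul.1 h2
    have h3 : Ideal.span {α} * c = Ideal.span {α} * Ideal.span {γ} := by
      rw [he, Ideal.span_singleton_mul_span_singleton, Ideal.span_singleton_mul_span_singleton, hγ]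
    refine ⟨γ, (Ideal.span_singleton_mul_right_inj hα).1 h3, hper v γ hv ?_⟩
    obtain ⟨β, -, s, hs⟩ := cop_inv hcα
    obtain ⟨t, ht⟩ := hd
    refine ⟨s * (γ - v) + β * t * v, ?_⟩
    linear_combination (γ - v) * hs + β * v * ht - β * hγ
  · rintro ⟨γ, rfl, hγ⟩
    obtain ⟨h0, h2, -⟩ := hcop γ hγ
    exact ⟨γ, h0, hγ, 1, 1, one_ne_zero, one_ne_zero, cop_one _, cop_one _,
      by simp, rfl⟩

end Pool.Agent.DS.H3
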