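import Pool.Agent.Lib.DS.H3.Un
import Pool.Agent.Lib.DI.H3.Prm

set_option autoImplicit false

/-!
# All imaginary quadratic fields, part H: `h` is ramified over `λ` (`S_hRam`)
-/

open scoped Pointwise nonZeroDivisors

noncomputable section

namespace Pool.Agent.DS.H3

open Pool.Agent.MuZ Pool.Agent.FW NumberField IsDedekindDomain
open Pool.Agent.DI (io ofC io_inj exists_io io_ofC ofC_io VP MP UP TP ex sqr sqr_sq kap)
open Pool.Agent.DI.H3 (Sqs Nsq S_KAP S_hLeg S_hPrm)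
open Pool.Agent.DN

namespace RamAux

private theorem two_not {P : Ideal ZZ} [hP : P.IsPrime] {l n : ℕ} (hl : (l : ZZ) ∈ P)
    (h : l.Coprime n) : ¬ MP P (n : Om) := by
  intro h1
  have h2 : (n : ZZ) ∈ P := (DI.MP.nat_iff n).1 h1
  have h3 : IsCoprime (l : ℤ) (n : ℤ) := Nat.isCoprime_iff_coprime.2 h
  obtain ⟨a, b, hab⟩ := h3
  apply hP.one_notMem
  have h4 : (a : ZZ) * (l : ZZ) + (b : ZZ) * (n : ZZ) = 1 := by
    have := congrArg (fun t : ℤ => (t : ZZ)) hab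
    simpa using this
  rw [← h4]
  exact P.add_mem (P.mul_mem_left _ hl) (P.mul_mem_left _ h2)

private theorem mem_Sqs {l : ℕ} (j : ℕ) :
    j ∈ Sqs l ↔ j < l ∧ (j : ZMod l) ≠ 0 ∧ IsSquare (j : ZMod l) := by
  classical
  unfold Sqs
  exact Finset.mem_filter.trans (and_congr_left' Finset.mem_range)

private theorem xO_congr {k o : ℕ} {b b' : Ideal (OO k o)} {z z' : ℂ} (h : XC b z = XC b' z') :
    xO b z = xO b' z' := by
  unfold xO
  rw [h]

end RamAux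

open RamAux in
theorem tRam (h1 : S_B1) (h2 : S_B7) (h3 : S_D4) (h4 : S_O6) (h5 : S_hSq) (h6 : S_hRdm)
    (h7 : S_hDg) (h8 : S_hLat) (h9 : S_hFix) (h10 : S_hInr) (h11' : S_hIn) (h12' : S_hHN) :
    S_hRam := by
  intro k o _ f N l la r hN hD h hh P hP hlP hPla hPM
  have : P.IsPrime := hP.1
  have hlp := hD.hl
  have : Fact l.Prime := ⟨hlp⟩
  have : NeZero l := ⟨hlp.ne_zero⟩
  have hl4 := hD.hl4
  have hl2 : l ≠ 2 := by
    intro h
    rw [h] at hl4
    omega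
  have hlc2 : l.Coprime 2 := (Nat.coprime_primes hlp Nat.prime_two).2 hl2
  have hM : 0 < f * 2 ^ N * l :=
    Nat.mul_pos (Nat.mul_pos hD.hf.pos (pow_pos two_pos _)) hlp.pos
  obtain ⟨ι, hι, hGK, hne⟩ := h10 k o l la hlp hl2 hD.hla P hP hlP hPla
  obtain ⟨r1, r2, r3, r4, r5, r6, r7, -, -⟩ := h6 k o f l la r hD
  obtain ⟨q1, q2, -, q4, -, q6⟩ := h8 k o f l la r hD
  obtain ⟨g1, -, -⟩ := h7 k o f l la r hD
  obtain ⟨-, -, -, o4, -⟩ := h4 k o
  obtain ⟨-, r10, -, r11, -, -, -, r13, -⟩ := h5 l hlp hl4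
  obtain ⟨-, -, -, x4⟩ := h9 k o f N hD.hf hD.h3 hN
  have htop : (⊤ : Ideal (OO k o)) ≠ ⊥ := top_ne_bot
  have hPt : PrI (⊤ : Ideal (OO k o)) l := top_sup_eq _
  obtain ⟨q61, -⟩ := q6 ⊤ htop hPt
  obtain ⟨b1, b2, -⟩ := h1 k o ⊤ htop
  obtain ⟨b7, -⟩ := (h2 k o ⊤ htop).2.2 g15_top.cop
  have hιL : ι ∈ (Mn k o f N).fixingSubgroup := hPM ι hι
  refine ⟨ι, hι, hιL, fun h0 => ?_⟩
  -- (2)
  have hP2 : ¬ MP P (2 : Om) := by
    have h4 := two_not (P := P) (l := l) (n := 2) hlP hlc2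
    exact_mod_cast h4
  have hFN : 0 < f * 2 ^ N := Nat.mul_pos hD.hf.pos (pow_pos two_pos _)
  have hlM : l.Coprime (f * 2 ^ N) := Nat.Coprime.mul_right hD.hlf (Nat.Coprime.pow_right _ hlc2)
  obtain ⟨a, haN, ha, ha15⟩ : ∃ a : OO k o, HN f N a ∧ Psi ι (f * 2 ^ N * l) (sp a) ∧
      (15 : OO k o) ∣ a - 1 := by
    obtain ⟨a0, haN0, ha0⟩ := x4 ι hιL l hlp.pos
    have hδ : sp ((f * 2 ^ N : ℕ) : OO k o) ≠ ⊥ := by
      intro h
      have h5 : ((f * 2 ^ N : ℕ) : OO k o) = 0 := Ideal.span_singleton_eq_bot.1 h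
      have h6 := congrArg Nm h5
      rw [Nm_nat, Nm_zero] at h6
      have h7 : ((f * 2 ^ N : ℕ) : ℤ) = 0 := pow_eq_zero_iff (two_ne_zero) |>.1 h6
      omega
    have hnA : ¬ Abv P (sp ((f * 2 ^ N : ℕ) : OO k o)) := by
      intro h
      have h5 := h _ (Ideal.mem_span_singleton_self _)
      rw [toO_nat] at h5
      exact two_not hlP hlM h5
    obtain ⟨e, he, heN, hea⟩ := h11' k o f N hD.hf hD.h3 hN P hP hP2 ι hι hιL l a0
      (sp ((f * 2 ^ N : ℕ) : OO k o)) hlp.pos haN0 ha0 hδ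
      (Ideal.span_singleton_le_span_singleton.2 (Nat.cast_dvd_cast (Dvd.intro _ rfl))) hnA
    have h15 : (15 : OO k o) ∣ ((f * 2 ^ N : ℕ) : OO k o) := by
      have := Nat.cast_dvd_cast (α := OO k o) (fif_dvd hD.h3 N)
      exact_mod_cast this
    refine ⟨e * a0, ?_, ?_, h15.trans (Ideal.mem_span_singleton.1 hea)⟩
    · obtain ⟨-, -, n3, -⟩ := h12' k o f N hD.hf hD.h3 hN
      exact n3 _ _ heN haN0
    · rwa [span_unit_mul he a0]
  have ha3 : (3 : OO k o) ∣ a - 1 := dvd_trans ⟨5, by norm_num⟩ ha15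
  have ha5 : (5 : OO k o) ∣ a - 1 := dvd_trans ⟨3, by norm_num⟩ ha15
  have ha0 : a ≠ 0 := fun h11 => ha.ne (Ideal.span_singleton_eq_bot.2 h11)
  have hcop : Cop a l := cop_dvd ((o4 _ a hM).1 (pri_dvd (Dvd.intro_left _ rfl) ha.cop)) (Dvd.intro_left _ rfl)
  have hsq : IsSquare (rd r a) := (hh ι hιL _ a hM (dvd_refl _) haN ha).1 h0
  have hxa : rd r a ≠ 0 := r7 a hcop
  set x : ZMod l := rd r a with hx
  set G : ℕ → Om := fun j => xO (⊤ : Ideal (OO k o)) (pL la j) with hG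
  set e : ℕ → ℕ := fun j => (x * (j : ZMod l)).val with he
  have hecast : ∀ j : ℕ, ((e j : ℕ) : ZMod l) = x * j := fun j => by
    rw [he]
    exact ZMod.natCast_zmod_val _
  have hper : ∀ (z : ℂ) (v : OO k o), XC (⊤ : Ideal (OO k o)) (z + toC v) = XC (⊤ : Ideal (OO k o)) z :=
    fun z v => by
      unfold XC
      rw [(b1 z (toC v) (lam_top.2 ⟨v, rfl⟩)).1]
  have heven : ∀ z : ℂ, XC (⊤ : Ideal (OO k o)) (-z) = XC (⊤ : Ideal (OO k o)) z := fun z => by
    unfold XC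
    rw [(b2 z).1]
  have hRG : ∀ i j : ℕ, ((i : ZMod l) = j ∨ (i : ZMod l) = -(j : ZMod l)) → G i = G j := by
    rintro i j (hij | hij)
    · obtain ⟨z, hz⟩ := q1 1 j i (by rw [r6, one_mul, hij])
      rw [toC_one, one_mul] at hz
      apply xO_congr
      rw [hz]
      exact (hper _ z).symm
    · obtain ⟨z, hz⟩ := q1 (-1) j i (by rw [r4, r6, hij, neg_mul, one_mul])
      rw [toC_neg, toC_one, neg_one_mul] at hz
      apply xO_congr
      rw [← heven (pL la j), hz]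
      exact (hper _ z).symm
  have hmem : ∀ j : ℕ, j ∈ Sqs l ↔ j < l ∧ (j : ZMod l) ≠ 0 ∧ IsSquare (j : ZMod l) := mem_Sqs
  have hcast_sub : ∀ j : ℕ, j ≤ l → ((l - j : ℕ) : ZMod l) = -(j : ZMod l) := by
    intro j hj
    rw [Nat.cast_sub hj, ZMod.natCast_self, zero_sub]
  have hιG : ∀ j : ℕ, ι (G j) = G (e j) := by
    intro j
    obtain ⟨z, hz⟩ := q1 a j (e j) (hecast j)
    have e0 : ((f * 2 ^ N * l : ℕ) : ℂ) * pL la j ∈ Lam (⊤ : Ideal (OO k o)) := by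
      refine lam_top.2 ⟨((f * 2 ^ N : ℕ) : OO k o) * ((j : OO k o) * cjO la), ?_⟩
      have hlC : (l : ℂ) ≠ 0 := by exact_mod_cast hlp.ne_zero
      rw [toC_mul, toC_nat, q2 j, Nat.cast_mul (f * 2 ^ N) l]
      field_simp
    have e2 : ι (xO (⊤ : Ideal (OO k o)) (pL la j)) = xO (sp a * (⊤ : Ideal (OO k o))) (pL la j) :=
      ha.xx ⊤ htop g15_top.cop _ e0
    change ι (xO (⊤ : Ideal (OO k o)) (pL la j)) = xO (⊤ : Ideal (OO k o)) (pL la (e j))
    rw [e2]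
    apply xO_congr
    rw [((b7 a ha0 ha3 (Or.inl ha5)).2.2.2 _).1, hz, hper]
  set B : Finset ℕ := (Sqs l).filter (fun j => 2 * j < l) with hB
  have hBmem : ∀ j : ℕ, j ∈ B ↔ (j < l ∧ (j : ZMod l) ≠ 0 ∧ IsSquare (j : ZMod l)) ∧ 2 * j < l := by
    intro j
    rw [hB, Finset.mem_filter, hmem]
  have hprod : ∏ j ∈ B, G (e j) = ∏ j ∈ B, G j := by
    refine DI.H3.tPrm ℕ Om B (fun i j => (i : ZMod l) = j ∨ (i : ZMod l) = -(j : ZMod l)) e G
      ?_ ?_ ?_ ?_ hRG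
    · rintro i j (hij | hij)
      · exact Or.inl hij.symm
      · right
        rw [hij, neg_neg]
    · rintro i j k (hij | hij) (hjk | hjk)
      · exact Or.inl (hij.trans hjk)
      · exact Or.inr (hij.trans hjk)
      · right
        rw [hij, hjk]
      · left
        rw [hij, hjk, neg_neg]
    · intro t ht
      obtain ⟨⟨ht1, ht2, ht3⟩, ht4⟩ := (hBmem t).1 ht
      have hne' : ((e t : ℕ) : ZMod l) ≠ 0 := by
        rw [hecast]
        exact mul_ne_zero hxa ht2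
      have hsq' : IsSquare ((e t : ℕ) : ZMod l) := by
        rw [hecast]
        exact hsq.mul ht3
      have hlt : e t < l := ZMod.val_lt _
      by_cases hc : 2 * e t < l
      · exact ⟨e t, (hBmem _).2 ⟨⟨hlt, hne', hsq'⟩, hc⟩, Or.inl rfl⟩
      · refine ⟨l - e t, (hBmem _).2 ⟨⟨?_, ?_, ?_⟩, ?_⟩, Or.inr ?_⟩
        · omega
        · rw [hcast_sub _ hlt.le]
          exact neg_ne_zero.2 hne'
        · rw [hcast_sub _ hlt.le, ← neg_one_mul]
          exact r10.mul hsq'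
        · omega
        · rw [hcast_sub _ hlt.le, neg_neg]
    · intro t ht t' ht' hR
      obtain ⟨⟨ht1, ht2, ht3⟩, ht4⟩ := (hBmem t).1 ht
      obtain ⟨⟨ht1', ht2', ht3'⟩, ht4'⟩ := (hBmem t').1 ht'
      rw [hecast, hecast] at hR
      rcases hR with hR | hR
      · have h11 : (t : ZMod l) = t' := mul_left_cancel₀ hxa hR
        have h12 := (ZMod.natCast_eq_natCast_iff' t t' l).1 h11
        rwa [Nat.mod_eq_of_lt ht1, Nat.mod_eq_of_lt ht1'] at h12
      · exfalso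
        have h11 : (t : ZMod l) = -(t' : ZMod l) := by
          apply mul_left_cancel₀ hxa
          rw [hR, mul_neg]
        have h12 : ((t + t' : ℕ) : ZMod l) = 0 := by
          rw [Nat.cast_add, h11, neg_add_cancel]
        have h13 : l ∣ t + t' := (ZMod.natCast_eq_zero_iff _ _).1 h12
        have h14 : t ≠ 0 := by
          rintro rfl
          exact ht2 Nat.cast_zero
        have h15 := Nat.le_of_dvd (by omega) h13
        omega
  -- (3)
  set β : Om := sqr (toO la) with hβ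
  have hβ2 : β ^ 2 = toO la := sqr_sq _
  have hιβ : ι β = -β := by
    have h11 : (ι β) ^ 2 = β ^ 2 := by
      rw [← map_pow, hβ2, GK_toO hGK]
    rcases sq_eq_sq_iff_eq_or_eq_neg.1 h11 with h12 | h12
    · exact absurd h12 hne
    · exact h12
  obtain ⟨x1, hx1⟩ : ∃ x1 : Om, x1 = ∏ j ∈ B, G j := ⟨_, rfl⟩
  have hιx1 : ι x1 = x1 := by
    rw [hx1, map_prod]
    exact (Finset.prod_congr rfl fun j _ => hιG j).trans hprod
  have hx1sq : ∏ j ∈ Sqs l, G j = x1 ^ 2 := by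
    rw [hx1]
    refine r13 G fun j hj => hRG _ _ (Or.inr ?_)
    exact hcast_sub j ((hmem j).1 hj).1.le
  have hUy2 : UP P (((x1 * β) ^ 2) ^ ((l - 1) / 2)) := by
    have e1 : ((x1 * β) ^ 2) ^ ((l - 1) / 2) =
        ∏ j ∈ Sqs l, (toO la * G j ^ ((l - 1) / 2)) := by
      rw [Finset.prod_mul_distrib, Finset.prod_const, r11, Finset.prod_pow, hx1sq, mul_pow, hβ2,
        mul_pow, mul_comm]
    rw [e1]
    refine DI.UP.prod _ _ fun j hj => ?_
    obtain ⟨hj1, hj2, hj3⟩ := (hmem j).1 hj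
    have hj0 : 0 < j := by
      rw [Nat.pos_iff_ne_zero]
      rintro rfl
      exact hj2 Nat.cast_zero
    obtain ⟨w1, w2⟩ := q61 j hj0 hj1
    exact h3 k o la l g1 hD.cop30 P (hD.hG P hP hPla) hPla ⊤ g15_top _ (lam_sp.1 w1) w2
  have hlpos : 0 < (l - 1) / 2 := by
    have := hlp.two_le
    omega
  have hUy : UP P (x1 * β) := DI.UP.of_pow two_pos (DI.UP.of_pow hlpos hUy2)
  -- (4)
  have hiy : ι (x1 * β) = -(x1 * β) := by
    rw [map_mul, hιx1, hιβ, mul_neg]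
  have hM := DI.VP.inertia hι hUy.1
  rw [hiy] at hM
  have hM2 : MP P (2 * (x1 * β)) := by
    have h11 := hM.neg
    have e1 : -(-(x1 * β) - x1 * β) = 2 * (x1 * β) := by ring
    rwa [e1] at h11
  have hV2 : VP P (2 : Om) := by
    have := DI.VP.nat (P := P) 2
    simpa using this
  rcases DI.MP.mul_cases hV2 hUy.1 hM2 with h11 | h11
  · have h12 : MP P ((2 : ℕ) : Om) := by simpa using h11
    exact two_not hlP hlc2 h12
  · exact hUy.2 h11

end Pool.Agent.DS.H3
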