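import Pool.Agent.Lib.DS.H3.Un
import Pool.Agent.Lib.DI.H3.Prm

/-!
# All imaginary quadratic fields, part H: permutation of the set `T` of representatives
-/

set_option autoImplicit false

open scoped Pointwise nonZeroDivisors

noncomputable section

namespace Pool.Agent.DS.H3

open Pool.Agent.MuZ Pool.Agent.FW NumberField IsDedekindDomain
open Pool.Agent.DI (io ofC io_inj exists_io io_ofC ofC_io VP MP UP TP ex sqr sqr_sq kap)
open Pool.Agent.DN

variable {k o : ℕ}

private theorem TP_cop {a : OO k o} {n : ℕ} (ha : Cop a n) : IsCoprime a (n : OO k o) := by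
  obtain ⟨b, -, c, hc⟩ := cop_inv ha
  refine ⟨b, -c, ?_⟩
  linear_combination hc

theorem tTP (h1 : S_hHN) : S_hTP := by
  intro k o _ f N T a G hf h3 hN hT ha hev hper
  obtain ⟨_, _, hmul, _, hcop⟩ := h1 k o f N hf h3 hN
  have hca : IsCoprime a ((f * 2 ^ N : ℕ) : OO k o) := TP_cop (hcop a ha).2.2
  refine Pool.Agent.DI.H3.tPrm (OO k o) Om T
    (fun x y => ∃ e : OO k o, Nm e = 1 ∧ ((f * 2 ^ N : ℕ) : OO k o) ∣ x - e * y)
    (fun t => a * t) G ?_ ?_ ?_ ?_ ?_
  · rintro x y ⟨e, he, h⟩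
    refine ⟨cjO e, by rw [Nm_cjO, he], ?_⟩
    have h2 := Dvd.dvd.mul_left h (-cjO e)
    have e1 : -cjO e * (x - e * y) = y - cjO e * x := by
      linear_combination y * unit_cj' he
    rwa [e1] at h2
  · rintro x y z ⟨e, he, hxy⟩ ⟨e', he', hyz⟩
    refine ⟨e * e', by rw [Nm_mul, he, he', one_mul], ?_⟩
    have h2 := dvd_add hxy (Dvd.dvd.mul_left hyz e)
    have e1 : x - e * y + e * (y - e' * z) = x - e * e' * z := by ring
    rwa [e1] at h2
  · intro t ht
    have hat := hmul a t ha (hT.mem t ht)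
    obtain ⟨t', ht', h⟩ := hT.ex (a * t) hat
    exact ⟨t', ht', h⟩
  · rintro t ht t' ht' ⟨e, he, h⟩
    refine hT.uni t ht t' ht' e he ?_
    have e1 : a * t - e * (a * t') = a * (t - e * t') := by ring
    rw [e1] at h
    exact hca.symm.dvd_of_dvd_mul_left h
  · rintro x y ⟨e, he, z, hz⟩
    have e1 : x = e * y + ((f * 2 ^ N : ℕ) : OO k o) * z := by rw [← hz]; ring
    rw [e1, hper (e * y) z]
    exact hev e y he

end Pool.Agent.DS.H3
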