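import Pool.Agent.Lib.DS.H3.Spec

set_option autoImplicit false

/-!
# All imaginary quadratic fields, part H: `h` is unramified outside `2 λ` (`S_hUnr`)
-/

open scoped Pointwise nonZeroDivisors

noncomputable section

namespace Pool.Agent.DS.H3

open Pool.Agent.MuZ Pool.Agent.FW NumberField IsDedekindDomain
open Pool.Agent.DI (io ofC io_inj exists_io io_ofC ofC_io VP MP UP TP ex sqr sqr_sq kap)
open Pool.Agent.DI.H3 (Sqs Nsq S_KAP S_hLeg S_hPrm)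
open Pool.Agent.DN

theorem tUnr (h3 : S_hIn) (h4 : S_O6) (h5 : S_hSq) (h6 : S_hRdm) (h7 : S_hDg) (h9 : S_hFix) :
    S_hUnr := by
  intro k o _ f N l la r hN hD h hh P hP hP2 hPla ι hι hιL
  have hM : 0 < f * 2 ^ N * l :=
    Nat.mul_pos (Nat.mul_pos hD.hf.pos (pow_pos two_pos _)) hD.hl.pos
  obtain ⟨-, -, -, x4⟩ := h9 k o f N hD.hf hD.h3 hN
  obtain ⟨a, haN, ha⟩ := x4 ι hιL l hD.hl.pos
  obtain ⟨r1, r2, r3, r4, r5, r6, r7, -, -, r10⟩ := h6 k o f l la r hD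
  obtain ⟨g1, g2, g3⟩ := h7 k o f l la r hD
  obtain ⟨-, -, -, o4, -⟩ := h4 k o
  obtain ⟨s1, -⟩ := h5 l hD.hl hD.hl4
  have hcop : Cop a l := cop_dvd ((o4 _ a hM).1 (pri_dvd (Dvd.intro_left _ rfl) ha.cop)) (Dvd.intro_left _ rfl)
  have hra : rd r a ≠ 0 := r7 a hcop
  obtain ⟨e, he, -, hea⟩ := h3 k o f N hD.hf hD.h3 hN P hP hP2 ι hι hιL l a (sp la) hD.hl.pos haN ha
    g1.2.1 (g3 _ (Dvd.intro_left _ rfl)) (fun h10 => hPla ((g2 P hP).2 h10))
  have h11 : rd r (e * a - 1) = 0 := (hD.hker _).2 (Ideal.mem_span_singleton.1 hea)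
  rw [r3, r6, sub_eq_zero, r1] at h11
  have hre : rd r e ≠ 0 := by
    intro h12
    have : Fact l.Prime := ⟨hD.hl⟩
    rw [h12, zero_mul] at h11
    exact zero_ne_one h11
  have hsq : IsSquare (rd r a) := by
    refine ((s1 _ _ hre hra).1 ?_).1 (r10 e he)
    rw [h11]
    exact ⟨1, by ring⟩
  exact (hh ι hιL _ a hM (dvd_refl _) haN ha).2 hsq

end Pool.Agent.DS.H3
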