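import Pool.Agent.Lib.DI.H3.Leg
import Pool.Agent.Lib.DI.T.Kap
import Pool.Agent.Lib.DN.O.All
import Pool.Agent.Lib.DN.B.All
import Pool.Agent.Lib.DS.H3.Alm
import Pool.Agent.Lib.DS.H3.Cng
import Pool.Agent.Lib.DS.H3.Dg
import Pool.Agent.Lib.DS.H3.Eps
import Pool.Agent.Lib.DS.H3.Fin
import Pool.Agent.Lib.DS.H3.Fix
import Pool.Agent.Lib.DS.H3.Gd
import Pool.Agent.Lib.DS.H3.HN
import Pool.Agent.Lib.DS.H3.Hom
import Pool.Agent.Lib.DS.H3.In
import Pool.Agent.Lib.DS.H3.Inr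
import Pool.Agent.Lib.DS.H3.La
import Pool.Agent.Lib.DS.H3.Lat
import Pool.Agent.Lib.DS.H3.NmK
import Pool.Agent.Lib.DS.H3.Nrm
import Pool.Agent.Lib.DS.H3.Pri
import Pool.Agent.Lib.DS.H3.Ram
import Pool.Agent.Lib.DS.H3.Rdm
import Pool.Agent.Lib.DS.H3.Res
import Pool.Agent.Lib.DS.H3.Sq
import Pool.Agent.Lib.DS.H3.TP
import Pool.Agent.Lib.DS.H3.Tra
import Pool.Agent.Lib.DS.H3.Uni
import Pool.Agent.Lib.DS.H3.Unr

/-!
# All imaginary quadratic fields, part H: the element `x` of Thaine's argument, `S_KK` (author helper9)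

`2` is arbitrary (split, inert or ramified), `T` a system of representatives of `H_N` modulo the units of `O`, `3 ≤ N`. The inputs are the statements of
the other parts for `[SqN n t]` (`HIn`). The last step (`S_H`) is in `DR/H3`.
-/

set_option autoImplicit false

namespace Pool.Agent.DS.H3

open Pool.Agent.MuZ Pool.Agent.FW Pool.Agent.DN
open Pool.Agent.DI.H3 (S_KAP)

theorem tKAP : S_KAP := fun F _ _ hh _ _ hw h0 h1 => DI.kap_ex F hh hw h0 h1

/-- The statements of the other parts (all for `[SqN n t]`) used in part H. -/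
structure HIn : Prop where
  gq : S_GQB
  d3 : S_D3
  d4 : S_D4
  d5 : S_D5
  d6 : S_D6
  d7 : S_D7
  d8 : S_D8
  e1 : S_E1
  e2 : S_E2
  e4 : S_E4b
  e6 : S_E6
  e8 : S_E8
  e9 : S_E9
  e10 : S_E10
  gm : S_GM
  g3 : S_G3

/-- **Part H, the element `x`.** -/
theorem aKK (I : HIn) : S_KK := by
  have aRdm := tRdm
  have aSq := tSq
  have aHN := tHN
  have aTP := tTP aHN
  have aPri := tPri aHN
  have aDg := tDg aO2 aRdm
  have aLa := tLa aO2
  have aLat := tLat aO6 aRdm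
  have aGd := tGd aO6
  have aFix := tFix I.e1 I.e9 I.gm aPri
  have aEps := tEps I.e10 I.d8 aSq aRdm aHN aTP aLat
  have aUni := tUni aO6 I.d5 aGd
  have aNrm := tNrm aO6 I.d7 I.d8 I.g3 aSq aLat aGd aUni aTP
  have aCng := tCng aO6 I.d3 I.d6 aSq aDg aLat aGd aUni
  have aHom := tHom aO6 aO7 I.e1 I.e8 aSq aRdm aHN aFix
  have aIn := tIn aO2 aO6 aO7 aL3 aB1 I.e1 I.e4 I.e6 aFix aHN
  have aUnr := tUnr aIn aO6 aSq aRdm aDg aFix
  have aInr := tInr tNmK
  have aRam := tRam aB1 aB7 I.d4 aO6 aSq aRdm aDg aLat aFix aInr aIn aHN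
  have aTra := tTra tNmK
  have aRes := tRes aO2 aO6 I.e1 I.e2 I.g3 aSq aLa tAlm aPri aFix aEps aUni aNrm aCng aHom aUnr
    aRam aTra I.gq
  exact tFin aRes tKAP

end Pool.Agent.DS.H3
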