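import Pool.Agent.Lib.DS.E.AllZ
import Pool.Agent.Lib.DS.G.All
import Pool.Agent.Lib.DS.H3.All

/-!
# All imaginary quadratic fields, part H, the element `x` of Thaine's argument: no hypotheses (author helper9)
-/

set_option autoImplicit false

namespace Pool.Agent.DS.H3

open Pool.Agent.DN

theorem zGM : S_GM := G.aGM zE1 zE6 zE8
theorem zG3 : S_G3 := G.aG3 yD5 zD7 zD8 zE1 zE10

theorem zHIn : HIn where
  gq := zGQB
  d3 := yD3
  d4 := yD4
  d5 := yD5
  d6 := yD6
  d7 := zD7
  d8 := zD8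
  e1 := zE1
  e2 := zE2
  e4 := zE4b
  e6 := zE6
  e8 := zE8
  e9 := zE9
  e10 := zE10
  gm := zGM
  g3 := zG3

/-- **Part H, the element `x`**, for all imaginary quadratic fields. -/
theorem zKK : S_KK := aKK zHIn

end Pool.Agent.DS.H3
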